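import Mathlib

/-!
# Ostrowski automatic records (helper45): continued fractions
-/

set_option autoImplicit false

namespace Pool.Agent.H45OST

/-- complete quotients of `ξ` -/
noncomputable def zt (ξ : ℝ) : ℕ → ℝ
  | 0 => ξ
  | n + 1 => (Int.fract (zt ξ n))⁻¹

/-- the quotients `a_n` of the continued fraction of `ξ` (for `n ≥ 1`) -/
noncomputable def aa (ξ : ℝ) (n : ℕ) : ℕ := ⌊zt ξ n⌋₊

/-- `qq ξ n = q_{n-1}` -/
noncomputable def qq (ξ : ℝ) : ℕ → ℕ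
  | 0 => 0
  | 1 => 1
  | n + 2 => aa ξ (n + 1) * qq ξ (n + 1) + qq ξ n

/-- `pp ξ n = p_{n-1}` -/
noncomputable def pp (ξ : ℝ) : ℕ → ℤ
  | 0 => 1
  | 1 => ⌊ξ⌋
  | n + 2 => aa ξ (n + 1) * pp ξ (n + 1) + pp ξ n

/-- `q_{n-1} ξ - p_{n-1}` -/
noncomputable def dd (ξ : ℝ) (n : ℕ) : ℝ := qq ξ n * ξ - pp ξ n

variable {ξ : ℝ}

lemma zt_irr (h : Irrational ξ) : ∀ n, Irrational (zt ξ n)
  | 0 => h
  | n + 1 => by
    rw [zt, Int.fract]
    exact ((zt_irr h n).sub_intCast _).inv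

lemma fract_pos (h : Irrational ξ) (n : ℕ) : 0 < Int.fract (zt ξ n) := by
  rcases (Int.fract_nonneg (zt ξ n)).lt_or_eq with h1 | h1
  · exact h1
  · exfalso
    have h2 : zt ξ n = ⌊zt ξ n⌋ := by
      have := Int.floor_add_fract (zt ξ n)
      rw [← h1] at this; linarith
    exact (zt_irr h n) ⟨⌊zt ξ n⌋, by rw [h2]; simp⟩

lemma one_lt_zt (h : Irrational ξ) (n : ℕ) : 1 < zt ξ (n + 1) := by
  rw [zt]
  exact (one_lt_inv₀ (fract_pos h n)).2 (Int.fract_lt_one _)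

lemma zt_inv (n : ℕ) : (zt ξ (n + 1))⁻¹ = Int.fract (zt ξ n) := by
  rw [zt, inv_inv]

lemma zt_pos (h : Irrational ξ) (n : ℕ) : 0 < zt ξ (n + 1) := by
  linarith [one_lt_zt h n]

lemma zt_eq (h : Irrational ξ) (n : ℕ) :
    zt ξ (n + 1) = aa ξ (n + 1) + Int.fract (zt ξ (n + 1)) := by
  have h1 : ((aa ξ (n + 1) : ℕ) : ℝ) = ((⌊zt ξ (n + 1)⌋ : ℤ) : ℝ) := by
    rw [aa]
    exact natCast_floor_eq_intCast_floor (zt_pos h n).le
  rw [h1]
  exact (Int.floor_add_fract _).symm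

lemma aa_pos (h : Irrational ξ) (n : ℕ) : 1 ≤ aa ξ (n + 1) := by
  rw [aa, Nat.one_le_floor_iff]
  exact (one_lt_zt h n).le

lemma dd_zero : dd ξ 0 = -1 := by simp [dd, qq, pp]

lemma dd_one : dd ξ 1 = Int.fract ξ := by simp [dd, qq, pp]

lemma dd_rec (n : ℕ) : dd ξ (n + 2) = aa ξ (n + 1) * dd ξ (n + 1) + dd ξ n := by
  simp only [dd, qq, pp]; push_cast; ring

lemma dd_succ (h : Irrational ξ) : ∀ n, dd ξ (n + 1) * zt ξ (n + 1) = - dd ξ n
  | 0 => by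
    rw [dd_one, dd_zero, zt, zt]
    have := fract_pos h 0
    rw [zt] at this
    field_simp
  | n + 1 => by
    have h1 := dd_succ h n
    have h2 := zt_eq h n
    have h3 := fract_pos h (n + 1)
    rw [show n + 1 + 1 = n + 2 from rfl, dd_rec, zt]
    have h4 : (aa ξ (n + 1) : ℝ) = zt ξ (n + 1) - Int.fract (zt ξ (n + 1)) := by linarith
    have h5 : dd ξ n = - (dd ξ (n + 1) * zt ξ (n + 1)) := by linarith
    rw [h4, h5]
    field_simp
    ring

lemma dd_succ' (h : Irrational ξ) (n : ℕ) : dd ξ (n + 1) = - dd ξ n / zt ξ (n + 1) := by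
  rw [eq_div_iff (zt_pos h n).ne', dd_succ h]

lemma dd_ne (h : Irrational ξ) : ∀ n, dd ξ n ≠ 0
  | 0 => by rw [dd_zero]; norm_num
  | n + 1 => by
    rw [dd_succ' h]
    exact div_ne_zero (neg_ne_zero.2 (dd_ne h n)) (zt_pos h n).ne'

/-- the determinant -/
lemma det_eq : ∀ n, (qq ξ (n + 1) : ℤ) * pp ξ n - qq ξ n * pp ξ (n + 1) = (-1) ^ n
  | 0 => by simp [qq, pp]
  | n + 1 => by
    have := det_eq n
    rw [qq, pp, pow_succ, ← this]
    push_cast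
    ring

lemma det_real (n : ℕ) : (qq ξ (n + 1) : ℝ) * pp ξ n - qq ξ n * pp ξ (n + 1) = (-1) ^ n := by
  have := congrArg (Int.cast (R := ℝ)) (det_eq (ξ := ξ) n)
  push_cast at this
  exact this

lemma qq_dd (n : ℕ) : (qq ξ (n + 1) : ℝ) * dd ξ n - qq ξ n * dd ξ (n + 1) = -(-1) ^ n := by
  rw [dd, dd, ← det_real (ξ := ξ) n]
  ring

lemma qq_pos (h : Irrational ξ) : ∀ n, 1 ≤ qq ξ (n + 1)
  | 0 => by simp [qq]
  | n + 1 => by
    rw [qq]
    have h1 := qq_pos h n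
    have h2 := aa_pos h n
    nlinarith

lemma qq_le (h : Irrational ξ) : ∀ n, qq ξ n ≤ qq ξ (n + 1)
  | 0 => by simp [qq]
  | n + 1 => by
    rw [qq]
    have h2 := aa_pos h n
    nlinarith [Nat.zero_le (qq ξ n), Nat.zero_le (qq ξ (n+1))]

lemma qq_dd_abs (h : Irrational ξ) (n : ℕ) : (qq ξ (n + 1) : ℝ) * |dd ξ n| ≤ 1 := by
  have h1 := qq_dd (ξ := ξ) n
  rw [dd_succ' h] at h1
  have h2 : dd ξ n * ((qq ξ (n + 1) : ℝ) + qq ξ n / zt ξ (n + 1)) = -(-1) ^ n := by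
    rw [← h1]; ring
  have h3 : |dd ξ n| * ((qq ξ (n + 1) : ℝ) + qq ξ n / zt ξ (n + 1)) = 1 := by
    have h4 : 0 ≤ (qq ξ (n + 1) : ℝ) + qq ξ n / zt ξ (n + 1) := by
      have := zt_pos h n
      positivity
    have := congrArg abs h2
    rw [abs_mul, abs_of_nonneg h4, abs_neg, abs_pow, abs_neg, abs_one, one_pow] at this
    exact this
  have h5 : 0 ≤ |dd ξ n| * ((qq ξ n : ℝ) / zt ξ (n + 1)) := by
    have := zt_pos h n
    positivity
  nlinarith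

lemma dd_abs_le (h : Irrational ξ) (n : ℕ) : |dd ξ (n + 1)| ≤ |dd ξ n| := by
  rw [dd_succ' h, abs_div, abs_neg, abs_of_pos (zt_pos h n)]
  exact div_le_self (abs_nonneg _) (one_lt_zt h n).le

lemma dd_abs_le_one (h : Irrational ξ) : ∀ n, |dd ξ n| ≤ 1
  | 0 => by rw [dd_zero]; simp
  | n + 1 => (dd_abs_le h n).trans (dd_abs_le_one h n)

/-- the form of a complete quotient -/
lemma zt_form (h : Irrational ξ) (n : ℕ) :
    (qq ξ (n + 1) * ξ - pp ξ (n + 1)) * zt ξ (n + 1) + (qq ξ n * ξ - pp ξ n) = 0 := by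
  have := dd_succ h n
  rw [dd, dd] at this
  linarith

/-- Lagrange: the complete quotients of a quadratic irrational take finitely many values -/
theorem zt_finite (h : Irrational ξ) (a b c : ℤ) (ha : a ≠ 0)
    (hq : (a : ℝ) * ξ ^ 2 + b * ξ + c = 0) : (Set.range (zt ξ)).Finite := by
  classical
  -- the coefficients
  set A : ℕ → ℤ := fun n => a * pp ξ (n + 1) ^ 2 + b * pp ξ (n + 1) * qq ξ (n + 1)
    + c * (qq ξ (n + 1)) ^ 2 with hA
  set B : ℕ → ℤ := fun n => 2 * a * pp ξ (n + 1) * pp ξ n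
    + b * (pp ξ (n + 1) * qq ξ n + pp ξ n * qq ξ (n + 1)) + 2 * c * qq ξ (n + 1) * qq ξ n with hB
  set C : ℕ → ℤ := fun n => a * pp ξ n ^ 2 + b * pp ξ n * qq ξ n + c * (qq ξ n) ^ 2 with hC
  obtain ⟨K, hK⟩ : ∃ K : ℕ, 4 * |(a : ℝ)| + 2 * |2 * (a : ℝ) * ξ + b| ≤ K := exists_nat_ge _
  have e1 : ∀ n, (pp ξ n : ℝ) = qq ξ n * ξ - dd ξ n := fun n => by rw [dd]; ring
  have hcR : (c : ℝ) = -(a * ξ ^ 2 + b * ξ) := by linarith
  have qd : ∀ n, |(qq ξ (n + 1) : ℝ) * dd ξ (n + 1)| ≤ 1 := fun n => by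
    rw [abs_mul, Nat.abs_cast]
    have h1 := qq_dd_abs h n
    have h2 := dd_abs_le h n
    have h3 : (0 : ℝ) ≤ qq ξ (n + 1) := Nat.cast_nonneg _
    nlinarith
  have qd0 : ∀ n, |(qq ξ n : ℝ) * dd ξ n| ≤ 1 := fun n => by
    cases n with
    | zero => simp [qq]
    | succ n => exact qd n
  have qd1 : ∀ n, |(qq ξ (n + 1) : ℝ) * dd ξ n| ≤ 1 := fun n => by
    rw [abs_mul, Nat.abs_cast]; exact qq_dd_abs h n
  have qd2 : ∀ n, |(qq ξ n : ℝ) * dd ξ (n + 1)| ≤ 1 := fun n => by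
    rw [abs_mul, Nat.abs_cast]
    have h1 := qq_dd_abs h n
    have h2 := dd_abs_le h n
    have h3 : (qq ξ n : ℝ) ≤ qq ξ (n + 1) := by exact_mod_cast qq_le h n
    have h4 : (0 : ℝ) ≤ qq ξ n := Nat.cast_nonneg _
    nlinarith [abs_nonneg (dd ξ n), abs_nonneg (dd ξ (n + 1))]
  have Aform : ∀ n, (a * pp ξ n ^ 2 + b * pp ξ n * qq ξ n + c * (qq ξ n) ^ 2 : ℝ)
      = - (qq ξ n * dd ξ n) * (2 * a * ξ + b) + a * dd ξ n ^ 2 := fun n => by
    rw [e1 n, hcR]; ring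
  have bd2 : ∀ n, |dd ξ n ^ 2| ≤ 1 := fun n => by
    rw [abs_pow]
    exact pow_le_one₀ (abs_nonneg _) (dd_abs_le_one h n)
  have bdA : ∀ n, |(a * pp ξ n ^ 2 + b * pp ξ n * qq ξ n + c * (qq ξ n) ^ 2 : ℝ)| ≤ K := fun n => by
    rw [Aform n]
    refine (abs_add_le _ _).trans ?_
    rw [abs_mul, abs_mul, abs_neg]
    have h1 := qd0 n
    have h2 := bd2 n
    nlinarith [abs_nonneg (a : ℝ), abs_nonneg (2 * (a : ℝ) * ξ + b),
      abs_nonneg ((qq ξ n : ℝ) * dd ξ n), abs_nonneg (dd ξ n ^ 2)]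
  have bdAn : ∀ n, |(A n : ℤ)| ≤ K := fun n => by
    have := bdA (n + 1)
    rw [hA]
    have h2 : ((|a * pp ξ (n + 1) ^ 2 + b * pp ξ (n + 1) * qq ξ (n + 1)
      + c * (qq ξ (n + 1)) ^ 2| : ℤ) : ℝ) ≤ K := by push_cast; exact this
    exact_mod_cast h2
  have bdCn : ∀ n, |(C n : ℤ)| ≤ K := fun n => by
    have := bdA n
    rw [hC]
    have h2 : ((|a * pp ξ n ^ 2 + b * pp ξ n * qq ξ n
      + c * (qq ξ n) ^ 2| : ℤ) : ℝ) ≤ K := by push_cast; exact this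
    exact_mod_cast h2
  have Bform : ∀ n, ((2 * a * pp ξ (n + 1) * pp ξ n
    + b * (pp ξ (n + 1) * qq ξ n + pp ξ n * qq ξ (n + 1)) + 2 * c * qq ξ (n + 1) * qq ξ n : ℝ))
      = - (qq ξ (n + 1) * dd ξ n + qq ξ n * dd ξ (n + 1)) * (2 * a * ξ + b)
        + 2 * a * (dd ξ n * dd ξ (n + 1)) := fun n => by
    rw [e1 n, e1 (n + 1), hcR]; ring
  have bdBn : ∀ n, |(B n : ℤ)| ≤ K := fun n => by
    have h2 : ((|2 * a * pp ξ (n + 1) * pp ξ n
      + b * (pp ξ (n + 1) * qq ξ n + pp ξ n * qq ξ (n + 1)) + 2 * c * qq ξ (n + 1) * qq ξ n| : ℤ) : ℝ)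
        ≤ K := by
      push_cast
      rw [Bform n]
      refine (abs_add_le _ _).trans ?_
      rw [abs_mul, abs_mul (2 * (a : ℝ)), abs_neg, abs_mul (2 : ℝ)]
      have h1 : |(qq ξ (n + 1) * dd ξ n + qq ξ n * dd ξ (n + 1) : ℝ)| ≤ 2 :=
        (abs_add_le _ _).trans (by linarith [qd1 n, qd2 n])
      have h3 : |dd ξ n * dd ξ (n + 1)| ≤ 1 := by
        rw [abs_mul]
        exact mul_le_one₀ (dd_abs_le_one h n) (abs_nonneg _) (dd_abs_le_one h (n + 1))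
      have h4 : |(2 : ℝ)| = 2 := abs_of_pos two_pos
      rw [h4]
      nlinarith [abs_nonneg (a : ℝ), abs_nonneg (2 * (a : ℝ) * ξ + b),
        abs_nonneg ((qq ξ (n + 1) * dd ξ n + qq ξ n * dd ξ (n + 1) : ℝ)),
        abs_nonneg (dd ξ n * dd ξ (n + 1))]
    exact_mod_cast h2
  -- the equation
  have eqn : ∀ n, (A n : ℝ) * zt ξ (n + 1) ^ 2 + B n * zt ξ (n + 1) + C n = 0 := fun n => by
    have h1 := zt_form h n
    have h2 := zt_pos h n
    have h3 : 0 < (qq ξ (n + 1) : ℝ) := by exact_mod_cast qq_pos h n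
    have h4 : 0 < (qq ξ (n + 1) : ℝ) * zt ξ (n + 1) + qq ξ n := by positivity
    have h5 : ξ * (qq ξ (n + 1) * zt ξ (n + 1) + qq ξ n)
        = pp ξ (n + 1) * zt ξ (n + 1) + pp ξ n := by linarith
    have h6 : (a : ℝ) * (ξ * (qq ξ (n + 1) * zt ξ (n + 1) + qq ξ n)) ^ 2
        + b * (ξ * (qq ξ (n + 1) * zt ξ (n + 1) + qq ξ n))
          * (qq ξ (n + 1) * zt ξ (n + 1) + qq ξ n)
        + c * (qq ξ (n + 1) * zt ξ (n + 1) + qq ξ n) ^ 2 = 0 := by
      rw [show (a : ℝ) * (ξ * (qq ξ (n + 1) * zt ξ (n + 1) + qq ξ n)) ^ 2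
        + b * (ξ * (qq ξ (n + 1) * zt ξ (n + 1) + qq ξ n))
          * (qq ξ (n + 1) * zt ξ (n + 1) + qq ξ n)
        + c * (qq ξ (n + 1) * zt ξ (n + 1) + qq ξ n) ^ 2
        = (a * ξ ^ 2 + b * ξ + c) * (qq ξ (n + 1) * zt ξ (n + 1) + qq ξ n) ^ 2 by ring, hq]
      ring
    rw [h5] at h6
    rw [← h6, hA, hB, hC]
    push_cast
    ring
  -- the discriminant
  have disc : ∀ n, B n ^ 2 - 4 * A n * C n = b ^ 2 - 4 * a * c := fun n => by
    have h1 := det_eq (ξ := ξ) n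
    have h2 : ((qq ξ (n + 1) : ℤ) * pp ξ n - qq ξ n * pp ξ (n + 1)) ^ 2 = 1 := by
      rw [h1, ← pow_mul, mul_comm, pow_mul]; norm_num
    rw [hA, hB, hC]
    linear_combination (b ^ 2 - 4 * a * c) * h2
  have dne : b ^ 2 - 4 * a * c ≠ 0 := by
    intro h0
    have h1 : (2 * (a : ℝ) * ξ + b) ^ 2 = 0 := by
      have h2 : ((b ^ 2 - 4 * a * c : ℤ) : ℝ) = 0 := by rw [h0]; simp
      push_cast at h2
      have h3 : (4 * (a : ℝ)) * (a * ξ ^ 2 + b * ξ + c) = 0 := by rw [hq]; ring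
      nlinarith
    have h2 : 2 * (a : ℝ) * ξ + b = 0 := by
      exact pow_eq_zero_iff (two_ne_zero) |>.1 h1
    have h3 : ξ = ((-b / (2 * a) : ℚ) : ℝ) := by
      push_cast
      have : (a : ℝ) ≠ 0 := by exact_mod_cast ha
      field_simp
      linarith
    exact h ⟨_, h3.symm⟩
  -- finiteness
  have fin1 : ∀ u v w : ℤ, v ^ 2 - 4 * u * w ≠ 0 →
      {x : ℝ | (u : ℝ) * x ^ 2 + v * x + w = 0}.Finite := by
    intro u v w hd
    by_cases hu : u = 0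
    · subst hu
      have hv : (v : ℝ) ≠ 0 := by
        intro h0
        have : v = 0 := by exact_mod_cast h0
        subst this; simp at hd
      refine Set.Finite.subset (Set.finite_singleton (-(w : ℝ) / v)) ?_
      intro x hx
      simp only [Set.mem_setOf_eq, Int.cast_zero, zero_mul, zero_add] at hx
      rw [Set.mem_singleton_iff, eq_div_iff hv]
      linarith
    · have hu' : (u : ℝ) ≠ 0 := by exact_mod_cast hu
      refine Set.Finite.subset ((Set.finite_singleton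
        ((-(v : ℝ) + Real.sqrt (discrim (u : ℝ) v w)) / (2 * u))).union
        (Set.finite_singleton ((-(v : ℝ) - Real.sqrt (discrim (u : ℝ) v w)) / (2 * u)))) ?_
      intro x hx
      simp only [Set.mem_setOf_eq] at hx
      have hd0 : 0 ≤ discrim (u : ℝ) v w := by
        rw [discrim_eq_sq_of_quadratic_eq_zero (a := (u : ℝ)) (b := v) (c := w) (x := x)
          (by rw [← hx]; ring)]
        positivity
      have := (quadratic_eq_zero_iff hu' (s := Real.sqrt (discrim (u : ℝ) v w))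
        (Real.mul_self_sqrt hd0).symm x).1 (by rw [← hx]; ring)
      rcases this with h1 | h1
      · left; exact h1
      · right; exact h1
  have fin2 : (⋃ u ∈ Set.Icc (-(K : ℤ)) K, ⋃ v ∈ Set.Icc (-(K : ℤ)) K,
      ⋃ w ∈ Set.Icc (-(K : ℤ)) K, ⋃ (_ : v ^ 2 - 4 * u * w ≠ 0),
      {x : ℝ | (u : ℝ) * x ^ 2 + v * x + w = 0}).Finite := by
    refine Set.Finite.biUnion (Set.finite_Icc _ _) fun u _ => ?_
    refine Set.Finite.biUnion (Set.finite_Icc _ _) fun v _ => ?_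
    refine Set.Finite.biUnion (Set.finite_Icc _ _) fun w _ => ?_
    by_cases hd : v ^ 2 - 4 * u * w ≠ 0
    · refine (fin1 u v w hd).subset ?_
      exact Set.iUnion_subset fun _ => le_rfl
    · refine Set.finite_empty.subset ?_
      intro x hx
      simp only [Set.mem_iUnion] at hx
      exact (hd hx.1).elim
  refine (fin2.union (Set.finite_singleton ξ)).subset ?_
  rintro _ ⟨n, rfl⟩
  cases n with
  | zero => right; rfl
  | succ n =>
    left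
    simp only [Set.mem_iUnion]
    exact ⟨A n, abs_le.1 (bdAn n), B n, abs_le.1 (bdBn n), C n, abs_le.1 (bdCn n),
      by rw [disc n]; exact dne, eqn n⟩

end Pool.Agent.H45OST
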