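import Pool.Agent.H45OST.Basic

/-!
# Ostrowski automatic records (helper45): the crossing formula
-/

set_option autoImplicit false

namespace Pool.Agent.H45OST

open Finset

/-- `(-1)^k` -/
def sg (k : ℤ) : ℤ := if Even k then 1 else -1

lemma sg_succ (k : ℤ) : sg (k + 1) = - sg k := by
  unfold sg
  by_cases h : Even k
  · have : ¬ Even (k + 1) := by rw [Int.even_add_one]; exact not_not.2 h
    simp [h, this]
  · have : Even (k + 1) := by rw [Int.even_add_one]; exact h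
    simp [h, this]

lemma sg_abs (k : ℤ) : |sg k| = 1 := by
  unfold sg; split_ifs <;> simp

lemma sg_tele (a : ℤ) : ∀ b, a ≤ b → 2 * ∑ k ∈ Ioc a b, sg k = sg b - sg a := by
  intro b hb
  induction b, hb using Int.le_induction with
  | base => simp
  | succ b hb ih =>
    have : Ioc a (b + 1) = insert (b + 1) (Ioc a b) := by
      ext x; simp only [mem_Ioc, mem_insert]; omega
    rw [this, sum_insert (by simp), mul_add, ih, sg_succ]
    ring

/-- the signed indicator of a crossing -/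
noncomputable def cr (t s : ℝ) : ℤ := by
  classical exact if 0 < t ∧ t ≤ s then 1 else if s < t ∧ t ≤ 0 then -1 else 0

lemma cr_abs (t s : ℝ) : |cr t s| ≤ 1 := by
  unfold cr; split_ifs <;> simp

lemma cr_pos {t s : ℝ} (h1 : 0 < t) (h2 : t ≤ s) : cr t s = 1 := by
  unfold cr; rw [if_pos ⟨h1, h2⟩]

lemma cr_neg {t s : ℝ} (h1 : s < t) (h2 : t ≤ 0) : cr t s = -1 := by
  unfold cr; rw [if_neg (fun h => by linarith [h.1]), if_pos ⟨h1, h2⟩]

lemma cr_cases {t s : ℝ} (h : cr t s ≠ 0) : (0 < t ∧ t ≤ s) ∨ (s < t ∧ t ≤ 0) := by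
  unfold cr at h
  split_ifs at h with h1 h2
  · exact Or.inl h1
  · exact Or.inr h2
  · exact absurd rfl h

lemma cr_scale {c : ℝ} (hc : 0 < c) (t s : ℝ) : cr (c * t) (c * s) = cr t s := by
  unfold cr
  have h1 : (0 < c * t ∧ c * t ≤ c * s) ↔ (0 < t ∧ t ≤ s) := by
    rw [mul_pos_iff_of_pos_left hc, mul_le_mul_iff_right₀ hc]
  have h2 : (c * s < c * t ∧ c * t ≤ 0) ↔ (s < t ∧ t ≤ 0) := by
    rw [mul_lt_mul_iff_right₀ hc]
    constructor
    · rintro ⟨a, b⟩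
      refine ⟨a, ?_⟩
      by_contra h
      have := mul_pos hc (not_le.1 h)
      linarith
    · rintro ⟨a, b⟩
      exact ⟨a, mul_nonpos_of_nonneg_of_nonpos hc.le b⟩
  simp only [h1, h2]

lemma cr_mem {w s : ℝ} {k : ℤ} (h : cr (k - w) s ≠ 0) :
    k ∈ Ioc (min ⌊w⌋ ⌊w + s⌋) (max ⌊w⌋ ⌊w + s⌋) := by
  rw [mem_Ioc]
  rcases cr_cases h with ⟨h1, h2⟩ | ⟨h1, h2⟩
  · constructor
    · exact lt_of_le_of_lt (min_le_left _ _) (Int.floor_lt.2 (by linarith))
    · exact le_trans (Int.le_floor.2 (by linarith)) (le_max_right _ _)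
  · constructor
    · exact lt_of_le_of_lt (min_le_right _ _) (Int.floor_lt.2 (by linarith))
    · exact le_trans (Int.le_floor.2 (by linarith)) (le_max_left _ _)

lemma sg_cross (w s : ℝ) : sg ⌊w + s⌋ - sg ⌊w⌋
    = 2 * ∑ k ∈ Ioc (min ⌊w⌋ ⌊w + s⌋) (max ⌊w⌋ ⌊w + s⌋), sg k * cr (k - w) s := by
  rcases le_or_gt 0 s with hs | hs
  · have h1 : ⌊w⌋ ≤ ⌊w + s⌋ := Int.floor_mono (by linarith)
    rw [min_eq_left h1, max_eq_right h1, ← sg_tele _ _ h1]
    congr 1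
    refine sum_congr rfl fun k hk => ?_
    rw [mem_Ioc] at hk
    rw [cr_pos, mul_one]
    · have := Int.floor_lt.1 hk.1; linarith
    · have := Int.le_floor.1 hk.2; linarith
  · have h1 : ⌊w + s⌋ ≤ ⌊w⌋ := Int.floor_mono (by linarith)
    rw [min_eq_right h1, max_eq_left h1]
    have h2 := sg_tele _ _ h1
    have h3 : ∑ k ∈ Ioc ⌊w + s⌋ ⌊w⌋, sg k * cr (k - w) s
        = - ∑ k ∈ Ioc ⌊w + s⌋ ⌊w⌋, sg k := by
      rw [← sum_neg_distrib]
      refine sum_congr rfl fun k hk => ?_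
      rw [mem_Ioc] at hk
      rw [cr_neg, mul_neg_one]
      · have := Int.floor_lt.1 hk.1; linarith
      · have := Int.le_floor.1 hk.2; linarith
    rw [h3]
    linarith

/-- the step function -/
noncomputable def hh (t : ℝ) : ℤ := sg ⌊2 * t⌋

lemma hh_abs (t : ℝ) : |hh t| = 1 := sg_abs _

lemma hh_int (t : ℝ) (k : ℤ) : hh (t + k) = hh t := by
  unfold hh sg
  have h1 : (2 : ℝ) * (t + k) = 2 * t + ((2 * k : ℤ) : ℝ) := by push_cast; ring
  rw [h1, Int.floor_add_intCast]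
  have h2 : Even (⌊2 * t⌋ + 2 * k) ↔ Even ⌊2 * t⌋ := by
    rw [Int.even_add]; simp
  simp only [h2]

lemma hh_neg (t : ℝ) (h : ∀ k : ℤ, 2 * t ≠ k) : hh (-t) = - hh t := by
  unfold hh
  have h1 : ⌊2 * -t⌋ = -(⌊2 * t⌋ + 1) := by
    rw [Int.floor_eq_iff]
    have h2 := Int.floor_le (2 * t)
    have h3 := Int.lt_floor_add_one (2 * t)
    have h4 := h ⌊2 * t⌋
    push_cast
    constructor
    · linarith
    · rcases h2.lt_or_eq with h5 | h5
      · linarith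
      · exact absurd h5.symm h4
  rw [h1]
  have h2 : sg (-(⌊2 * t⌋ + 1)) = sg (⌊2 * t⌋ + 1) := by
    unfold sg; simp only [even_neg]
  rw [h2, sg_succ]

/-- the sums over the orbit started at `y` -/
noncomputable def T (ξ : ℝ) (m : ℕ) (y : ℝ) : ℤ := ∑ j ∈ range m, hh (y + (j + 1) * ξ)

variable {ξ : ℝ}

lemma T_zero (y : ℝ) : T ξ 0 y = 0 := by simp [T]

lemma T_add (m k : ℕ) (y : ℝ) : T ξ (m + k) y = T ξ m y + T ξ k (y + m * ξ) := by
  unfold T
  rw [sum_range_add]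
  congr 1
  refine sum_congr rfl fun j _ => ?_
  congr 1
  push_cast
  ring

lemma T_int (m : ℕ) (y : ℝ) (k : ℤ) : T ξ m (y + k) = T ξ m y := by
  unfold T
  refine sum_congr rfl fun j _ => ?_
  rw [show y + k + (j + 1) * ξ = (y + (j + 1) * ξ) + k by ring, hh_int]

/-- the box of the coordinates -/
noncomputable def Box : Finset (ℤ × ℤ) := Icc (-6) 6 ×ˢ Icc (-6) 6

lemma box_card : Box.card = 169 := by
  rw [Box, card_product, Int.card_Icc]; rfl

lemma coord (h : Irrational ξ) (n : ℕ) (a : ℤ) (ha0 : 0 ≤ a) (ha : a ≤ 2 * qq ξ (n + 1)) (s : ℝ)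
    (hs : |s| ≤ 4 * |dd ξ n|) :
    ∑ k ∈ Ioc (min ⌊a * ξ⌋ ⌊a * ξ + s⌋) (max ⌊a * ξ⌋ ⌊a * ξ + s⌋), sg k * cr (k - a * ξ) s
    = ∑ b ∈ Box, if b.1 * qq ξ (n + 1) + b.2 * qq ξ n = a then
        sg (b.1 * pp ξ (n + 1) + b.2 * pp ξ n) * cr (-(b.1 * dd ξ (n + 1) + b.2 * dd ξ n)) s
      else 0 := by
  classical
  rw [← sum_filter]
  symm
  have key : ∀ b : ℤ × ℤ, b.1 * qq ξ (n + 1) + b.2 * qq ξ n = a →
      (-(b.1 * dd ξ (n + 1) + b.2 * dd ξ n) : ℝ)
        = ((b.1 * pp ξ (n + 1) + b.2 * pp ξ n : ℤ) : ℝ) - a * ξ := by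
    intro b hb
    rw [← hb, dd, dd]
    push_cast
    ring
  have dt := det_eq (ξ := ξ) n
  have dsq : ((-1 : ℤ) ^ n) * (-1) ^ n = 1 := by
    rw [← mul_pow]; norm_num
  refine sum_bij_ne_zero (fun b _ _ => b.1 * pp ξ (n + 1) + b.2 * pp ξ n) ?_ ?_ ?_ ?_
  · intro b hb hne
    rw [mem_filter] at hb
    apply cr_mem
    rw [← key b hb.2]
    exact right_ne_zero_of_mul hne
  · intro b hb _ b' hb' _ he
    rw [mem_filter] at hb hb'
    have e1 : b.1 * qq ξ (n + 1) + b.2 * qq ξ n = b'.1 * qq ξ (n + 1) + b'.2 * qq ξ n := by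
      rw [hb.2, hb'.2]
    have e2 : (b.1 - b'.1) * (-1) ^ n = 0 := by
      rw [← dt]; linear_combination (pp ξ n : ℤ) * e1 - (qq ξ n : ℤ) * he
    have e3 : (b.2 - b'.2) * (-1) ^ n = 0 := by
      rw [← dt]; linear_combination (qq ξ (n + 1) : ℤ) * he - (pp ξ (n + 1) : ℤ) * e1
    have e0 : ((-1 : ℤ)) ^ n ≠ 0 := pow_ne_zero _ (by norm_num)
    have e4 := (mul_eq_zero.1 e2).resolve_right e0
    have e5 := (mul_eq_zero.1 e3).resolve_right e0
    exact Prod.ext (by omega) (by omega)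
  · intro k _ hk
    have hc := right_ne_zero_of_mul hk
    have ht : |(k : ℝ) - a * ξ| ≤ |s| := by
      rcases cr_cases hc with ⟨h1, h2⟩ | ⟨h1, h2⟩
      · rw [abs_of_pos h1]; exact h2.trans (le_abs_self s)
      · rw [abs_of_nonpos h2]
        have : s ≤ 0 := by linarith
        rw [abs_of_nonpos this]; linarith
    set u : ℤ := (-1) ^ n * (a * pp ξ n - k * qq ξ n) with hu
    set v : ℤ := (-1) ^ n * (k * qq ξ (n + 1) - a * pp ξ (n + 1)) with hv
    have e1 : u * qq ξ (n + 1) + v * qq ξ n = a := by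
      have : u * qq ξ (n + 1) + v * qq ξ n = ((-1) ^ n * (-1) ^ n) * a := by
        rw [hu, hv]
        linear_combination (a * (-1) ^ n) * dt
      rw [this, dsq, one_mul]
    have e2 : u * pp ξ (n + 1) + v * pp ξ n = k := by
      have : u * pp ξ (n + 1) + v * pp ξ n = ((-1) ^ n * (-1) ^ n) * k := by
        rw [hu, hv]
        linear_combination (k * (-1) ^ n) * dt
      rw [this, dsq, one_mul]
    have h1 := qq_dd_abs h n
    have h2 := dd_abs_le h n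
    have h3 : (qq ξ n : ℝ) ≤ qq ξ (n + 1) := by exact_mod_cast qq_le h n
    have h4 : (0 : ℝ) ≤ qq ξ n := Nat.cast_nonneg _
    have ha' : (a : ℝ) ≤ 2 * qq ξ (n + 1) := by exact_mod_cast ha
    have ha0' : (0 : ℝ) ≤ a := by exact_mod_cast ha0
    have habs : ∀ m : ℕ, |((-1 : ℝ)) ^ m| = 1 := fun m => by rw [abs_pow]; simp
    have hu6 : |(u : ℝ)| ≤ 6 := by
      have e3 : (u : ℝ) = (-1) ^ n * (-(a * dd ξ n) - (k - a * ξ) * qq ξ n) := by
        rw [hu, dd]; push_cast; ring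
      rw [e3, abs_mul, habs, one_mul]
      refine (abs_sub _ _).trans ?_
      rw [abs_neg, abs_mul, abs_mul, abs_of_nonneg ha0', abs_of_nonneg h4]
      nlinarith [abs_nonneg (dd ξ n), abs_nonneg ((k : ℝ) - a * ξ)]
    have hv6 : |(v : ℝ)| ≤ 6 := by
      have e3 : (v : ℝ) = (-1) ^ n * ((k - a * ξ) * qq ξ (n + 1) + a * dd ξ (n + 1)) := by
        rw [hv, dd]; push_cast; ring
      rw [e3, abs_mul, habs, one_mul]
      refine (abs_add_le _ _).trans ?_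
      rw [abs_mul, abs_mul, abs_of_nonneg ha0', abs_of_nonneg (h4.trans h3)]
      nlinarith [abs_nonneg (dd ξ n), abs_nonneg (dd ξ (n + 1)), abs_nonneg ((k : ℝ) - a * ξ)]
    have hu6' : |u| ≤ 6 := by exact_mod_cast hu6
    have hv6' : |v| ≤ 6 := by exact_mod_cast hv6
    have hmem : ((u, v) : ℤ × ℤ) ∈ Box.filter
        (fun b => b.1 * qq ξ (n + 1) + b.2 * qq ξ n = a) := by
      rw [mem_filter, Box, mem_product, mem_Icc, mem_Icc]
      exact ⟨⟨abs_le.1 hu6', abs_le.1 hv6'⟩, e1⟩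
    refine ⟨(u, v), hmem, ?_, e2⟩
    have := key (u, v) e1
    simp only at this ⊢
    rw [this, e2]
    exact hk
  · intro b hb _
    rw [mem_filter] at hb
    rw [key b hb.2]

/-- the coefficients -/
noncomputable def bet (ξ : ℝ) (n m : ℕ) (b : ℤ × ℤ) : ℤ :=
  ∑ j ∈ range m, if b.1 * qq ξ (n + 1) + b.2 * qq ξ n = 2 * ((j : ℤ) + 1) then
    sg (b.1 * pp ξ (n + 1) + b.2 * pp ξ n) else 0

lemma bet_abs (n m : ℕ) (b : ℤ × ℤ) : |bet ξ n m b| ≤ 1 := by
  unfold bet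
  by_cases h : ∃ j ∈ range m, b.1 * qq ξ (n + 1) + b.2 * qq ξ n = 2 * ((j : ℤ) + 1)
  · obtain ⟨j, hj, he⟩ := h
    rw [sum_eq_single j]
    · rw [if_pos he, sg_abs]
    · intro i _ hi
      rw [if_neg]
      rw [he]
      intro h2
      apply hi
      omega
    · intro h2; exact absurd hj h2
  · rw [sum_eq_zero]
    · simp
    · intro j hj
      rw [if_neg]
      exact fun h2 => h ⟨j, hj, h2⟩

lemma T_cross (h : Irrational ξ) (n m : ℕ) (hm : m ≤ qq ξ (n + 1)) (y : ℝ)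
    (hy : |y| ≤ 2 * |dd ξ n|) :
    T ξ m y - T ξ m 0
      = 2 * ∑ b ∈ Box, bet ξ n m b * cr (-(b.1 * dd ξ (n + 1) + b.2 * dd ξ n)) (2 * y) := by
  unfold T
  rw [← sum_sub_distrib]
  have h1 : ∀ j ∈ range m, hh (y + (j + 1) * ξ) - hh (0 + (j + 1) * ξ)
      = 2 * ∑ b ∈ Box, if b.1 * qq ξ (n + 1) + b.2 * qq ξ n = 2 * ((j : ℤ) + 1) then
        sg (b.1 * pp ξ (n + 1) + b.2 * pp ξ n)
          * cr (-(b.1 * dd ξ (n + 1) + b.2 * dd ξ n)) (2 * y) else 0 := by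
    intro j hj
    rw [mem_range] at hj
    have := sg_cross (((2 * ((j : ℤ) + 1) : ℤ) : ℝ) * ξ) (2 * y)
    rw [coord h n (2 * ((j : ℤ) + 1)) (by positivity) (by omega) (2 * y)
      (by rw [abs_mul, abs_of_pos (two_pos (α := ℝ))]; linarith)] at this
    rw [← this]
    unfold hh
    congr 3 <;> (push_cast; ring)
  rw [sum_congr rfl h1, ← mul_sum, sum_comm]
  congr 1
  refine sum_congr rfl fun b _ => ?_
  rw [bet, sum_mul]
  refine sum_congr rfl fun j _ => ?_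
  split_ifs <;> simp

/-- the points -/
abbrev Xs := {x : ℝ // |x| ≤ 2}

/-- the differences as functions of the scaled point -/
noncomputable def Fu (ξ : ℝ) (n m : ℕ) : Xs → ℤ := fun x => T ξ m (x.1 * dd ξ n) - T ξ m 0

/-- the finite family -/
noncomputable def Fam (ξ : ℝ) :
    (({b // b ∈ Box} → Set.Icc (-1 : ℤ) 1) × Bool × Set.range (zt ξ)) → Xs → ℤ :=
  fun p x => 2 * ∑ b ∈ Box.attach, (p.1 b : ℤ)
    * cr ((if p.2.1 then (1 : ℝ) else -1) * (b.1.1 / p.2.2.1 - b.1.2))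
        ((if p.2.1 then (1 : ℝ) else -1) * (2 * x.1))

lemma Fu_mem (h : Irrational ξ) (n m : ℕ) (hm : m ≤ qq ξ (n + 1)) :
    Fu ξ n m ∈ Set.range (Fam ξ) := by
  classical
  refine ⟨(fun b => ⟨bet ξ n m b.1, abs_le.1 (bet_abs n m b.1)⟩, decide (0 < dd ξ n),
    ⟨zt ξ (n + 1), n + 1, rfl⟩), ?_⟩
  funext x
  have hx : |x.1 * dd ξ n| ≤ 2 * |dd ξ n| := by
    rw [abs_mul]; exact mul_le_mul_of_nonneg_right x.2 (abs_nonneg _)
  have hz := zt_pos h n
  rw [Fu, T_cross h n m hm _ hx, Fam]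
  congr 1
  rw [← sum_attach Box]
  refine sum_congr rfl fun b _ => ?_
  simp only
  congr 1
  rcases lt_or_gt_of_ne (dd_ne h n) with hd | hd
  · have : ¬ (0 < dd ξ n) := by linarith
    simp only [this, decide_false, Bool.false_eq_true, if_false]
    rw [← cr_scale (c := - dd ξ n) (by linarith), dd_succ' h]
    congr 1
    · ring
    · ring
  · simp only [hd, decide_true, if_true]
    rw [← cr_scale (c := dd ξ n) hd, dd_succ' h]
    congr 1
    · ring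
    · ring

lemma Fam_abs (p) (x : Xs) : |Fam ξ p x| ≤ 338 := by
  unfold Fam
  rw [abs_mul]
  have h1 : |∑ b ∈ Box.attach, ((p.1 b : ℤ)
    * cr ((if p.2.1 then (1 : ℝ) else -1) * (b.1.1 / p.2.2.1 - b.1.2))
        ((if p.2.1 then (1 : ℝ) else -1) * (2 * x.1)))| ≤ ∑ b ∈ Box.attach, (1 : ℤ) := by
    refine (abs_sum_le_sum_abs _ _).trans (sum_le_sum fun b _ => ?_)
    rw [abs_mul]
    have h2 : |(p.1 b : ℤ)| ≤ 1 := abs_le.2 (p.1 b).2
    have h3 := cr_abs ((if p.2.1 then (1 : ℝ) else -1) * (b.1.1 / p.2.2.1 - b.1.2))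
        ((if p.2.1 then (1 : ℝ) else -1) * (2 * x.1))
    nlinarith [abs_nonneg (p.1 b : ℤ), abs_nonneg (cr ((if p.2.1 then (1 : ℝ) else -1) * (b.1.1 / p.2.2.1 - b.1.2))
        ((if p.2.1 then (1 : ℝ) else -1) * (2 * x.1)))]
  rw [sum_const, card_attach, box_card] at h1
  simp at h1 ⊢
  linarith

lemma Fu_abs (h : Irrational ξ) (n m : ℕ) (hm : m ≤ qq ξ (n + 1)) (x : Xs) :
    |Fu ξ n m x| ≤ 338 := by
  obtain ⟨p, hp⟩ := Fu_mem h n m hm
  rw [← hp]; exact Fam_abs p x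

lemma T_abs_diff (h : Irrational ξ) (n m : ℕ) (hm : m ≤ qq ξ (n + 1)) (x : ℝ) (hx : |x| ≤ 2) :
    |T ξ m (x * dd ξ n) - T ξ m 0| ≤ 338 := Fu_abs h n m hm ⟨x, hx⟩

/-- Denjoy-Koksma -/
lemma T_q_abs (h : Irrational ξ) (n : ℕ) : |T ξ (qq ξ (n + 1)) 0| ≤ 170 := by
  obtain ⟨q, hq⟩ : ∃ q, qq ξ (n + 1) = q + 1 := ⟨qq ξ (n + 1) - 1, by have := qq_pos h n; omega⟩
  have e1 : T ξ q 0 = - T ξ q (-dd ξ (n + 1)) := by
    unfold T
    rw [← sum_range_reflect, ← sum_neg_distrib]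
    refine sum_congr rfl fun j hj => ?_
    rw [mem_range] at hj
    rw [← hh_neg]
    · have e2 : -(-dd ξ (n + 1) + ((j : ℝ) + 1) * ξ) + ((pp ξ (n + 1) : ℤ) : ℝ)
          = 0 + (((q - 1 - j : ℕ) : ℝ) + 1) * ξ := by
        rw [dd, hq, Nat.cast_sub (by omega), Nat.cast_sub (by omega)]
        push_cast
        ring
      rw [← e2, hh_int]
    · intro k hk
      -- `2 (j + 1 - q_n) ξ` would be an integer
      have e3 : (2 * ((j : ℤ) + 1 - (q + 1)) : ℝ) * ξ = (k - 2 * pp ξ (n + 1) : ℝ) := by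
        rw [← hk, dd, hq]; push_cast; ring
      have e4 : (2 * ((j : ℤ) + 1 - (q + 1)) : ℤ) ≠ 0 := by omega
      have e5 := h.intCast_mul e4
      apply e5
      refine ⟨((k - 2 * pp ξ (n + 1) : ℤ) : ℚ), ?_⟩
      push_cast
      push_cast at e3
      linarith
  have e2 : |T ξ q (-dd ξ (n + 1)) - T ξ q 0| ≤ 338 := by
    have := T_abs_diff h n q (by omega) ((zt ξ (n + 1))⁻¹) (by
      rw [abs_of_pos (inv_pos.2 (zt_pos h n))]
      have := inv_lt_one_of_one_lt₀ (one_lt_zt h n)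
      linarith)
    rw [show (zt ξ (n + 1))⁻¹ * dd ξ n = -dd ξ (n + 1) by rw [dd_succ' h]; ring] at this
    exact this
  rw [hq, T, sum_range_succ]
  have e3 : |T ξ q 0| ≤ 169 := by
    have : T ξ q (-dd ξ (n + 1)) = - T ξ q 0 := by linarith
    rw [this] at e2
    rw [abs_le] at e2 ⊢
    omega
  have e4 := hh_abs (0 + ((q : ℝ) + 1) * ξ)
  refine (abs_add_le _ _).trans ?_
  rw [e4]
  have : ∑ j ∈ range q, hh (0 + ((j : ℝ) + 1) * ξ) = T ξ q 0 := rfl
  rw [this]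
  linarith

end Pool.Agent.H45OST
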