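import Pool.Agent.H45OST.Reg

/-!
# Ostrowski automatic records (helper45): the interface
-/

set_option autoImplicit false

open Finset

namespace Pool.Agent.H45OST

variable {ξ : ℝ}

lemma getD_cons_succ' (b : ℕ) (l : List ℕ) (i : ℕ) : (b :: l).getD (i + 1) 0 = l.getD i 0 := by
  simp [List.getD]

lemma getD_cons_zero' (b : ℕ) (l : List ℕ) : (b :: l).getD 0 0 = b := by
  simp [List.getD]

lemma Vd_iff (h : Irrational ξ) (l : List ℕ) : ∀ (n : ℕ) (c : Prop), Vd (zt ξ (n + 1)) c l ↔
    (l.getD 0 0 ≤ aa ξ (n + 1) ∧ (l.getD 0 0 = aa ξ (n + 1) → c)) ∧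
    ∀ i, l.getD (i + 1) 0 ≤ aa ξ (n + i + 2) ∧
      (l.getD (i + 1) 0 = aa ξ (n + i + 2) → l.getD i 0 = 0) := by
  induction l with
  | nil =>
    intro n c
    have h0 : ∀ i, ([] : List ℕ).getD i 0 = 0 := fun i => by simp [List.getD]
    simp only [h0, Vd, true_iff]
    refine ⟨⟨Nat.zero_le _, fun he => ?_⟩, fun i => ⟨Nat.zero_le _, fun _ => trivial⟩⟩
    have := aa_pos h n
    omega
  | cons b l ih =>
    intro n c
    rw [Vd, nx_zt, ih (n + 1) (b = 0), getD_cons_zero']
    have ha : ⌊zt ξ (n + 1)⌋₊ = aa ξ (n + 1) := rfl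
    rw [ha]
    constructor
    · rintro ⟨h1, h2, ⟨h3, h4⟩, h5⟩
      refine ⟨⟨h1, h2⟩, fun i => ?_⟩
      rw [getD_cons_succ']
      cases i with
      | zero => rw [getD_cons_zero']; exact ⟨h3, h4⟩
      | succ i =>
        rw [getD_cons_succ', show n + (i + 1) + 2 = n + 1 + i + 2 by ring]
        exact h5 i
    · rintro ⟨⟨h1, h2⟩, h3⟩
      refine ⟨h1, h2, ?_, fun i => ?_⟩
      · have := h3 0
        rw [getD_cons_succ', getD_cons_zero'] at this
        exact this
      · have := h3 (i + 1)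
        rw [getD_cons_succ', getD_cons_succ', show n + (i + 1) + 2 = n + 1 + i + 2 by ring] at this
        exact this

lemma V_sum (l : List ℕ) : ∀ n, V ξ n l = ∑ i ∈ range l.length, l.getD i 0 * qq ξ (n + i + 1) := by
  induction l with
  | nil => intro n; simp [V]
  | cons b l ih =>
    intro n
    rw [V, ih (n + 1), List.length_cons, sum_range_succ']
    rw [add_comm, getD_cons_zero', add_zero]
    congr 1
    refine sum_congr rfl fun i _ => ?_
    rw [getD_cons_succ', show n + (i + 1) + 1 = n + 1 + i + 1 by ring]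

lemma rep_exists (h : Irrational ξ) : ∀ n N,
    (N < qq ξ (n + 1) → ∃ l : List ℕ, l.length = n ∧ Vd (zt ξ 1) False l ∧ V ξ 0 l = N) ∧
    (N < qq ξ n → ∃ l : List ℕ, l.length = n ∧ Vd (zt ξ 1) False l ∧ fl False l ∧ V ξ 0 l = N) := by
  intro n
  induction n with
  | zero =>
    intro N
    refine ⟨fun hN => ⟨[], rfl, trivial, ?_⟩, fun hN => ?_⟩
    · rw [qq] at hN
      simp only [V]; omega
    · rw [qq] at hN; omega
  | succ n ih =>
    intro N
    have hsn : ∀ (l : List ℕ) (b : ℕ), l.length = n → V ξ 0 (l ++ [b])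
        = V ξ 0 l + b * qq ξ (n + 1) := by
      intro l b hl
      rw [V_append, hl]; simp [V]
    have hvn : ∀ (l : List ℕ) (b : ℕ), l.length = n → (Vd (zt ξ 1) False (l ++ [b]) ↔
        Vd (zt ξ 1) False l ∧ (b ≤ aa ξ (n + 1) ∧ (b = aa ξ (n + 1) → fl False l))) := by
      intro l b hl
      have := Vd_append (ξ := ξ) l [b] 0 False
      rw [zero_add, zero_add, hl] at this
      rw [this]
      simp only [Vd, and_true]
      rfl
    constructor
    · intro hN
      rw [show n + 1 + 1 = n + 2 from rfl, qq] at hN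
      have hq := qq_pos h n
      have hdm := Nat.div_add_mod N (qq ξ (n + 1))
      have hmod := Nat.mod_lt N (show 0 < qq ξ (n + 1) by omega)
      by_cases hb : N / qq ξ (n + 1) < aa ξ (n + 1)
      · obtain ⟨l, h1, h2, h3⟩ := (ih (N % qq ξ (n + 1))).1 hmod
        refine ⟨l ++ [N / qq ξ (n + 1)], by simp [h1], ?_, ?_⟩
        · rw [hvn l _ h1]
          exact ⟨h2, hb.le, fun he => absurd he hb.ne⟩
        · rw [hsn l _ h1, h3, mul_comm]; omega
      · have hb' : aa ξ (n + 1) * qq ξ (n + 1) ≤ N := by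
          rw [not_lt] at hb
          calc aa ξ (n + 1) * qq ξ (n + 1) ≤ N / qq ξ (n + 1) * qq ξ (n + 1) :=
                Nat.mul_le_mul_right _ hb
            _ ≤ N := Nat.div_mul_le_self _ _
        obtain ⟨l, h1, h2, h3, h4⟩ := (ih (N - aa ξ (n + 1) * qq ξ (n + 1))).2 (by omega)
        refine ⟨l ++ [aa ξ (n + 1)], by simp [h1], ?_, ?_⟩
        · rw [hvn l _ h1]
          exact ⟨h2, le_refl _, fun _ => h3⟩
        · rw [hsn l _ h1, h4]; omega
    · intro hN
      obtain ⟨l, h1, h2, h3⟩ := (ih N).1 hN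
      refine ⟨l ++ [0], by simp [h1], ?_, ?_, ?_⟩
      · rw [hvn l _ h1]
        refine ⟨h2, Nat.zero_le _, fun he => ?_⟩
        have := aa_pos h n
        omega
      · rw [fl_snoc]
      · rw [hsn l _ h1, h3]; omega

lemma qq_unb (h : Irrational ξ) : ∀ n, n ≤ qq ξ (n + 1) + 1 ∧ n + 1 ≤ qq ξ (n + 2) + 1
  | 0 => ⟨by omega, by have := qq_pos h 1; omega⟩
  | n + 1 => by
    obtain ⟨h1, h2⟩ := qq_unb h n
    refine ⟨h2, ?_⟩
    have e : qq ξ (n + 1 + 2) = aa ξ (n + 2) * qq ξ (n + 2) + qq ξ (n + 1) := rfl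
    rw [e]
    have h3 : 1 ≤ aa ξ (n + 2) := aa_pos h (n + 1)
    have h4 := qq_pos h n
    have h5 : 1 * qq ξ (n + 2) ≤ aa ξ (n + 2) * qq ξ (n + 2) :=
      Nat.mul_le_mul_right _ h3
    omega

lemma rep_exists' (h : Irrational ξ) (N : ℕ) :
    ∃ l : List ℕ, Vd (zt ξ 1) False l ∧ l.getLast? ≠ some 0 ∧ V ξ 0 l = N := by
  obtain ⟨l, -, h1, h2⟩ := (rep_exists h (N + 2) N).1 (by have := (qq_unb h (N + 2)).1; omega)
  -- remove the trailing zeros
  have key : ∀ l : List ℕ, Vd (zt ξ 1) False l →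
      ∃ l' : List ℕ, Vd (zt ξ 1) False l' ∧ l'.getLast? ≠ some 0 ∧ V ξ 0 l' = V ξ 0 l := by
    intro l
    induction l using List.reverseRecOn with
    | nil => intro _; exact ⟨[], trivial, by simp, rfl⟩
    | append_singleton l b ih =>
      intro hv
      by_cases hb : b = 0
      · have hv' := ((Vd_append (ξ := ξ) l [b] 0 False).1 hv).1
        obtain ⟨l', h1, h2, h3⟩ := ih hv'
        refine ⟨l', h1, h2, ?_⟩
        rw [h3, V_append, hb]
        simp [V]
      · exact ⟨l ++ [b], hv, by simp [hb], rfl⟩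
  obtain ⟨l', h3, h4, h5⟩ := key l h1
  exact ⟨l', h3, h4, h5.trans h2⟩

/-- the length is determined by the value -/
lemma len_lt (h : Irrational ξ) (l : List ℕ) (hl : l ≠ []) (hl0 : l.getLast? ≠ some 0) :
    qq ξ l.length ≤ V ξ 0 l := by
  induction l using List.reverseRecOn with
  | nil => exact absurd rfl hl
  | append_singleton l b _ =>
    have hb : b ≠ 0 := by
      intro h0
      apply hl0
      rw [h0]
      simp
    rw [V_append, List.length_append, List.length_singleton, zero_add]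
    simp only [V, add_zero]
    have : 1 * qq ξ (l.length + 1) ≤ b * qq ξ (l.length + 1) :=
      Nat.mul_le_mul_right _ (Nat.pos_of_ne_zero hb)
    omega

lemma qq_mono (h : Irrational ξ) : ∀ n, qq ξ n ≤ qq ξ (n + 1)
  | 0 => by simp [qq]
  | n + 1 => by
    rw [show n + 1 + 1 = n + 2 from rfl, qq]
    have := Nat.mul_le_mul_right (qq ξ (n + 1)) (aa_pos h n)
    omega

lemma same_len (h : Irrational ξ) : ∀ (l l' : List ℕ), l.length = l'.length →
    Vd (zt ξ 1) False l → Vd (zt ξ 1) False l' → V ξ 0 l = V ξ 0 l' → l = l' := by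
  intro l
  induction l using List.reverseRecOn with
  | nil => intro l' h1 _ _ _; exact (List.length_eq_zero_iff.1 h1.symm).symm
  | append_singleton l b ih =>
    intro l' h1 h2 h3 h4
    rcases List.eq_nil_or_concat l' with h5 | ⟨l'', b', h5⟩
    · rw [h5] at h1; simp at h1
    · rw [List.concat_eq_append] at h5
      subst h5
      simp only [List.length_append, List.length_singleton, add_left_inj] at h1
      have hv := (Vd_append (ξ := ξ) l [b] 0 False).1 h2
      have hv' := (Vd_append (ξ := ξ) l'' [b'] 0 False).1 h3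
      rw [V_append, V_append, ← h1] at h4
      simp only [V, add_zero, zero_add] at h4
      have l1 := (V_lt h l hv.1).1
      have l2 := (V_lt h l'' hv'.1).1
      rw [← h1] at l2
      have hbb : b = b' := by
        rcases lt_trichotomy b b' with h6 | h6 | h6
        · have := Nat.mul_le_mul_right (qq ξ (l.length + 1)) (show b + 1 ≤ b' from h6)
          rw [add_mul] at this
          omega
        · exact h6
        · have := Nat.mul_le_mul_right (qq ξ (l.length + 1)) (show b' + 1 ≤ b from h6)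
          rw [add_mul] at this
          omega
      subst hbb
      rw [ih l'' h1 hv.1 hv'.1 (by omega)]

lemma rep_unique (h : Irrational ξ) (l l' : List ℕ) (h1 : Vd (zt ξ 1) False l)
    (h2 : l.getLast? ≠ some 0) (h1' : Vd (zt ξ 1) False l') (h2' : l'.getLast? ≠ some 0)
    (hV : V ξ 0 l = V ξ 0 l') : l = l' := by
  have hmono : Monotone (qq ξ) := monotone_nat_of_le_succ (qq_mono h)
  have key : ∀ l l' : List ℕ, Vd (zt ξ 1) False l → l'.getLast? ≠ some 0 →
      V ξ 0 l = V ξ 0 l' → l'.length ≤ l.length := by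
    intro l l' h1 h2 h3
    by_contra hc
    have hl' : l' ≠ [] := by rintro rfl; simp at hc
    have a1 := len_lt h l' hl' h2
    have a2 := (V_lt h l h1).1
    have a3 : qq ξ (l.length + 1) ≤ qq ξ l'.length := hmono (by omega)
    omega
  exact same_len h l l' (le_antisymm (key l' l h1' h2 hV.symm) (key l l' h1 h2' hV)) h1 h1' hV

/-- discrete intermediate values -/
lemma ivt (f : ℕ → ℤ) (h0 : f 0 = 0) (hs : ∀ n, |f (n + 1) - f n| = 1) (N : ℕ) (hN : 0 < N) :
    (∀ n < N, f N ≠ f n) ↔ ((∀ n < N, f n < f N) ∨ (∀ n < N, f N < f n)) := by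
  constructor
  · intro H
    have H0 : f N ≠ 0 := by rw [← h0]; exact H 0 hN
    have hs' : ∀ n, f (n + 1) = f n + 1 ∨ f (n + 1) = f n - 1 := by
      intro n
      rcases abs_eq (zero_le_one' ℤ) |>.1 (hs n) with h | h
      · left; linarith
      · right; linarith
    rcases lt_or_gt_of_ne H0 with h1 | h1
    · right
      intro n
      induction n with
      | zero => intro _; rw [h0]; exact h1
      | succ n ih =>
        intro hn
        have a1 := ih (by omega)
        have a2 := H (n + 1) hn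
        rcases hs' n with h | h <;> omega
    · left
      intro n
      induction n with
      | zero => intro _; rw [h0]; exact h1
      | succ n ih =>
        intro hn
        have a1 := ih (by omega)
        have a2 := H (n + 1) hn
        rcases hs' n with h | h <;> omega
  · rintro (H | H) n hn
    · exact (H n hn).ne'
    · exact (H n hn).ne

lemma record_iff (N : ℕ) : (∀ n < N, T ξ N 0 ≠ T ξ n 0) ↔
    ((∀ n < N, W 1 ξ n 0 < W 1 ξ N 0) ∨ (∀ n < N, W (-1) ξ n 0 < W (-1) ξ N 0)) := by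
  have hW1 : ∀ n, W 1 ξ n 0 = T ξ n 0 := fun n => by rw [W, one_mul]
  have hW2 : ∀ n, W (-1) ξ n 0 = - T ξ n 0 := fun n => by rw [W]; ring
  simp only [hW1, hW2, neg_lt_neg_iff]
  rcases Nat.eq_zero_or_pos N with rfl | hN
  · constructor
    · intro _; left; intro n hn; omega
    · intro _ n hn; omega
  · refine ivt (fun n => T ξ n 0) (T_zero 0) (fun n => ?_) N hN
    have : T ξ (n + 1) 0 - T ξ n 0 = hh (0 + (n + 1) * ξ) := by
      rw [T, T, sum_range_succ]; ring
    simp only [this]
    exact hh_abs _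

/-- the language of the records, least significant digit first -/
def RecL (ξ : ℝ) (B : ℕ) : Language (Fin (B + 1)) :=
  {w | Vd (zt ξ 1) False (w.map Fin.val) ∧ (w.map Fin.val).getLast? ≠ some 0 ∧
    ∀ n < V ξ 0 (w.map Fin.val), T ξ (V ξ 0 (w.map Fin.val)) 0 ≠ T ξ n 0}

lemma RecL_eq (ξ : ℝ) (B : ℕ) : RecL ξ B = LL 1 ξ B + LL (-1) ξ B := by
  ext w
  rw [Language.mem_add, mem_LL, mem_LL]
  have : w ∈ RecL ξ B ↔ Vd (zt ξ 1) False (w.map Fin.val) ∧ (w.map Fin.val).getLast? ≠ some 0 ∧
    ∀ n < V ξ 0 (w.map Fin.val), T ξ (V ξ 0 (w.map Fin.val)) 0 ≠ T ξ n 0 := Iff.rfl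
  rw [this, record_iff, Acc, Acc]
  tauto

theorem RecL_regular (h : Irrational ξ) (hf : (Set.range (zt ξ)).Finite) (B : ℕ) :
    (RecL ξ B).IsRegular := by
  rw [RecL_eq]
  exact (LL_regular h (by norm_num) hf B).add (LL_regular h (by norm_num) hf B)

lemma aa_bound (hf : (Set.range (zt ξ)).Finite) : ∃ B : ℕ, ∀ n, aa ξ n ≤ B := by
  have h1 : (Set.range (aa ξ)).Finite := by
    have : Set.range (aa ξ) = (fun z : ℝ => ⌊z⌋₊) '' Set.range (zt ξ) := by
      rw [← Set.range_comp]; rfl
    rw [this]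
    exact hf.image _
  obtain ⟨B, hB⟩ := h1.bddAbove
  exact ⟨B, fun n => hB ⟨n, rfl⟩⟩

end Pool.Agent.H45OST
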