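import Pool.Agent.H45OST.Sig

/-!
# Ostrowski automatic records (helper45): finitely many left quotients
-/

set_option autoImplicit false

namespace Pool.Agent.H45OST

variable {ξ : ℝ}

/-- the digits (least significant first) represent a number at which the sums (with the sign `σ`)
take a new maximum -/
def Acc (σ : ℤ) (ξ : ℝ) (l : List ℕ) : Prop :=
  Vd (zt ξ 1) False l ∧ l.getLast? ≠ some 0 ∧
    ∀ M < V ξ 0 l, W σ ξ M 0 < W σ ξ (V ξ 0 l) 0

lemma V_pos (h : Irrational ξ) (l : List ℕ) (hl : l ≠ []) (hl0 : l.getLast? ≠ some 0) (n : ℕ) :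
    0 < V ξ n l := by
  induction l using List.reverseRecOn with
  | nil => exact absurd rfl hl
  | append_singleton l b _ =>
    rw [V_append]
    have hb : b ≠ 0 := by
      intro h0
      apply hl0
      rw [h0]
      simp
    simp only [V, add_zero]
    have h1 := qq_pos h (n + l.length)
    have h2 : 0 < b * qq ξ (n + l.length + 1) := Nat.mul_pos (Nat.pos_of_ne_zero hb) (by omega)
    omega

lemma acc_append (h : Irrational ξ) (σ : ℤ) (s l : List ℕ) (hl : l ≠ []) :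
    Acc σ ξ (s ++ l) ↔
      Vd (zt ξ 1) False s ∧ Vd (zt ξ (s.length + 1)) (fl False s) l ∧ l.getLast? ≠ some 0 ∧
      (∀ m < V ξ 0 s, W σ ξ m (Xf (zt ξ (s.length + 1)) l * dd ξ s.length)
        < W σ ξ (V ξ 0 s) (Xf (zt ξ (s.length + 1)) l * dd ξ s.length)) ∧
      Good σ ξ s.length 0 (Pt (zt ξ (s.length + 1)) l)
        (W σ ξ (V ξ 0 s) (Xf (zt ξ (s.length + 1)) l * dd ξ s.length)) := by
  unfold Acc
  have h1 : (s ++ l).getLast? = l.getLast? := List.getLast?_append_of_ne_nil s hl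
  have h2 := Vd_append (ξ := ξ) s l 0 False
  rw [zero_add, zero_add] at h2
  have h3 := V_append (ξ := ξ) s l 0
  rw [zero_add] at h3
  obtain ⟨k, hk⟩ := V_xi h l s.length
  have h4 : ∀ m, W σ ξ (V ξ s.length l + m) 0 = W σ ξ (V ξ s.length l) 0
      + W σ ξ m (Xf (zt ξ (s.length + 1)) l * dd ξ s.length) := by
    intro m
    rw [W_add, hk, zero_add, W_int]
  rw [h1, h2, h3, add_comm (V ξ 0 s), h4, and_assoc]
  refine and_congr Iff.rfl (and_congr Iff.rfl (and_congr Iff.rfl ?_))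
  rw [Good, tot_Pt, zero_mul]
  constructor
  · intro H
    constructor
    · intro m hm
      have := H (V ξ s.length l + m) (by omega)
      rw [h4] at this
      linarith
    · intro M hM
      exact H M (by omega)
  · rintro ⟨H1, H2⟩ M hM
    rcases lt_or_ge M (V ξ s.length l) with h5 | h5
    · exact H2 M h5
    · obtain ⟨m, rfl⟩ := Nat.exists_eq_add_of_le h5
      have := H1 m (by omega)
      rw [h4]
      linarith

/-- the type of the signatures -/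
abbrev SgT := ℝ × Prop × Prop × ℤ × (Xs → ℤ) × ℤ × (Xs → ℤ) × Set (ℤ × (Xs → ℤ)) ×
  Set (ℤ × (Xs → ℤ)) × ℤ × (Xs → ℤ) × Set (ℤ × (Xs → ℤ))

/-- the signature of a word -/
noncomputable def sig (σ : ℤ) (ξ : ℝ) (μ : ℕ → ℤ) (C2 C3 : ℤ) (s : List ℕ) : SgT :=
  (zt ξ (s.length + 1), fl False s, Acc σ ξ s,
    W σ ξ (qq ξ (s.length + 1)) 0, FW σ ξ s.length (qq ξ (s.length + 1)),
    W σ ξ (qq ξ s.length) 0, FW σ ξ s.length (qq ξ s.length),
    Prof σ ξ μ C2 s.length true, Prof σ ξ μ C2 s.length false,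
    max (W σ ξ (V ξ 0 s) 0 - μ s.length) (-C3), FW σ ξ s.length (V ξ 0 s),
    ProfS σ ξ s.length (V ξ 0 s))

lemma prof_transfer (h : Irrational ξ) {σ : ℤ} (hσ : |σ| ≤ 1) (μ : ℕ → ℤ) (CC : ℤ)
    (hC : ∀ n t, ∃ m < len ξ (n + 1) t, μ (n + 1) - CC ≤ W σ ξ m 0) (n n' : ℕ) (t : Bool)
    (hP : Prof σ ξ μ (CC + 1000) (n + 1) t = Prof σ ξ μ (CC + 1000) (n' + 1) t) (x : ℝ) (θ : ℤ)
    (hx : |x| ≤ 2)
    (H : ∀ m < len ξ (n + 1) t, W σ ξ m (x * dd ξ (n + 1)) - μ (n + 1) < θ) :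
    ∀ m < len ξ (n' + 1) t, W σ ξ m (x * dd ξ (n' + 1)) - μ (n' + 1) < θ := by
  intro m' hm'
  have h1 : (max (W σ ξ m' 0 - μ (n' + 1)) (-(CC + 1000)), FW σ ξ (n' + 1) m')
      ∈ Prof σ ξ μ (CC + 1000) (n' + 1) t := ⟨m', hm', rfl⟩
  rw [← hP] at h1
  obtain ⟨m, hm, he⟩ := h1
  rw [Prod.mk.injEq] at he
  obtain ⟨he1, he2⟩ := he
  have h2 := congrFun he2 ⟨x, hx⟩
  simp only [FW] at h2
  have h3 := H m hm
  obtain ⟨m0, hm0, h40⟩ := hC n t
  have h4 := H m0 hm0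
  have h5 := W_diff h hσ (n + 1) m0 (by have := len_le h (n + 1) t; omega) x hx
  have h6 := W_diff h hσ (n + 1) m (by have := len_le h (n + 1) t; omega) x hx
  rw [abs_le] at h5 h6
  rcases le_total (W σ ξ m' 0 - μ (n' + 1)) (-(CC + 1000)) with h7 | h7
  · linarith [h5.1, h6.2]
  · rw [max_eq_left h7] at he1
    rcases le_total (W σ ξ m 0 - μ (n + 1)) (-(CC + 1000)) with h8 | h8
    · rw [max_eq_right h8] at he1
      linarith [h5.1, h6.2]
    · rw [max_eq_left h8] at he1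
      linarith

lemma profS_transfer (h : Irrational ξ) {σ : ℤ} (hσ : |σ| ≤ 1) (n n' N N' : ℕ)
    (hN : N ≤ qq ξ (n + 1)) (hN' : N' ≤ qq ξ (n' + 1))
    (hP : ProfS σ ξ n N = ProfS σ ξ n' N') (hF : FW σ ξ n N = FW σ ξ n' N') (x : ℝ) (hx : |x| ≤ 2)
    (H : ∀ m < N, W σ ξ m (x * dd ξ n) < W σ ξ N (x * dd ξ n)) :
    ∀ m < N', W σ ξ m (x * dd ξ n') < W σ ξ N' (x * dd ξ n') := by
  intro m' hm'
  have h1 : (max (-700) (min 700 (W σ ξ m' 0 - W σ ξ N' 0)), FW σ ξ n' m')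
      ∈ ProfS σ ξ n' N' := ⟨m', hm', rfl⟩
  rw [← hP] at h1
  obtain ⟨m, hm, he⟩ := h1
  rw [Prod.mk.injEq] at he
  obtain ⟨he1, he2⟩ := he
  have h2 := congrFun he2 ⟨x, hx⟩
  have h2' := congrFun hF ⟨x, hx⟩
  simp only [FW] at h2 h2'
  have h3 := H m hm
  have h5 := W_diff h hσ n m (by omega) x hx
  have h6 := W_diff h hσ n N hN x hx
  rw [abs_le] at h5 h6
  generalize W σ ξ m (x * dd ξ n) = a1 at *
  generalize W σ ξ m' (x * dd ξ n') = a2 at *
  generalize W σ ξ N (x * dd ξ n) = a3 at *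
  generalize W σ ξ N' (x * dd ξ n') = a4 at *
  generalize W σ ξ m 0 = b1 at *
  generalize W σ ξ m' 0 = b2 at *
  generalize W σ ξ N 0 = b3 at *
  generalize W σ ξ N' 0 = b4 at *
  omega

theorem sig_acc (h : Irrational ξ) {σ : ℤ} (hσ : |σ| ≤ 1) (μ : ℕ → ℤ) (CC : ℤ) (hCC : 0 ≤ CC)
    (hC : ∀ n t, ∃ m < len ξ (n + 1) t, μ (n + 1) - CC ≤ W σ ξ m 0)
    (s s' : List ℕ) (hs : s ≠ []) (hs' : s' ≠ []) (hv : Vd (zt ξ 1) False s)
    (hv' : Vd (zt ξ 1) False s')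
    (hsig : sig σ ξ μ (CC + 1000) (2 * (CC + 508) + 676) s
      = sig σ ξ μ (CC + 1000) (2 * (CC + 508) + 676) s')
    (l : List ℕ) (hl : Acc σ ξ (s ++ l)) : Acc σ ξ (s' ++ l) := by
  simp only [sig, Prod.mk.injEq] at hsig
  obtain ⟨hz, hfl, hacc, hE1, hF1, hE0, hF0, hP1, hP0, hτ, hFN, hPS⟩ := hsig
  by_cases hl0 : l = []
  · subst hl0
    rw [List.append_nil] at hl ⊢
    rw [← hacc]; exact hl
  rw [acc_append h σ s l hl0] at hl
  rw [acc_append h σ s' l hl0]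
  obtain ⟨n, hn⟩ : ∃ n, s.length = n + 1 := ⟨s.length - 1, by
    have := List.length_pos_of_ne_nil hs; omega⟩
  obtain ⟨n', hn'⟩ : ∃ n, s'.length = n + 1 := ⟨s'.length - 1, by
    have := List.length_pos_of_ne_nil hs'; omega⟩
  have hN := (V_lt h s hv).1
  have hN' := (V_lt h s' hv').1
  simp only [hn, hn'] at hz hE1 hF1 hE0 hF0 hP1 hP0 hτ hFN hPS hN hN' hl ⊢
  obtain ⟨_, h2, h3, h4, h5⟩ := hl
  rw [← hz, ← hfl]
  have hx := Xf_abs h l (n + 1) _ h2
  refine ⟨hv', h2, h3, ?_, ?_⟩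
  · exact profS_transfer h hσ (n + 1) (n' + 1) _ _ hN.le hN'.le hPS hFN _ hx h4
  · set x := Xf (zt ξ (n + 1 + 1)) l with hxdef
    have hfx := congrFun hFN ⟨x, hx⟩
    have hpos := Pos_Pt2 h l (n + 1) _ h2
    have hne : Pt (zt ξ (n + 1 + 1)) l ≠ [] := by
      intro h0
      have := tot_Pt (ξ := ξ) l (n + 1)
      rw [h0, tot_nil] at this
      have := V_pos h l hl0 h3 (n + 1)
      omega
    have hdN := W_diff h hσ (n + 1) _ hN.le x hx
    have e1 : W σ ξ (V ξ 0 s) (x * dd ξ (n + 1)) = μ (n + 1)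
        + (W σ ξ (V ξ 0 s) (x * dd ξ (n + 1)) - μ (n + 1)) := by ring
    rw [e1] at h5
    have hf := fails h hσ (n + 1) (μ (n + 1)) (CC + 508)
      (fun t => by
        obtain ⟨m, hm, hm2⟩ := hC n t
        exact ⟨m, hm, by linarith⟩)
      (fun t => len_le h (n + 1) t)
      (fun t x hx => (W_len_abs h hσ n t x hx).trans (by linarith)) _ _ 0 hne hpos h5
    rw [abs_le] at hdN
    simp only [FW] at hfx
    have hτ1 : W σ ξ (V ξ 0 s) 0 - μ (n + 1) > -(2 * (CC + 508) + 676) := by linarith [hdN.1, hdN.2]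
    rw [max_eq_left hτ1.le] at hτ
    have hτ2 : W σ ξ (V ξ 0 s') 0 - μ (n' + 1) = W σ ξ (V ξ 0 s) 0 - μ (n + 1) := by
      rcases le_total (W σ ξ (V ξ 0 s') 0 - μ (n' + 1)) (-(2 * (CC + 508) + 676)) with h7 | h7
      · rw [max_eq_right h7] at hτ; linarith
      · rw [max_eq_left h7] at hτ; exact hτ.symm
    have e2 : W σ ξ (V ξ 0 s') (x * dd ξ (n' + 1)) = μ (n' + 1)
        + (W σ ξ (V ξ 0 s) (x * dd ξ (n + 1)) - μ (n + 1)) := by linarith
    rw [e2]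
    refine (transfer h σ (n + 1) (n' + 1) hz (μ (n + 1)) (μ (n' + 1)) ?_ ?_ _ _ 0 hpos).2 h5
    · intro t y hy
      cases t
      · have := congrFun hF0 ⟨y, hy⟩
        simp only [FW] at this
        simp only [len, Bool.false_eq_true, if_false]
        linarith
      · have := congrFun hF1 ⟨y, hy⟩
        simp only [FW] at this
        simp only [len, if_true]
        linarith
    · intro t y θ hy H
      cases t
      · exact prof_transfer h hσ μ CC hC n n' false hP0 y θ hy H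
      · exact prof_transfer h hσ μ CC hC n n' true hP1 y θ hy H

theorem sig_finite (h : Irrational ξ) {σ : ℤ} (hσ : |σ| ≤ 1) (hf : (Set.range (zt ξ)).Finite)
    (μ : ℕ → ℤ) (hμ : ∀ n, ∀ m < qq ξ (n + 1), W σ ξ m 0 ≤ μ n) (C2 C3 : ℤ) (h2 : 0 ≤ C2)
    (h3 : 0 ≤ C3) :
    (sig σ ξ μ C2 C3 '' {s | s ≠ [] ∧ Vd (zt ξ 1) False s}).Finite := by
  have hFS := FS_finite σ hf
  have hp : {b : Set (ℤ × (Xs → ℤ)) | b ⊆ Set.Icc (-C2) 0 ×ˢ FS σ ξ}.Finite :=
    ((Set.finite_Icc (-C2) 0).prod hFS).finite_subsets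
  have hp2 : {b : Set (ℤ × (Xs → ℤ)) | b ⊆ Set.Icc (-700 : ℤ) 700 ×ˢ FS σ ξ}.Finite :=
    ((Set.finite_Icc (-700 : ℤ) 700).prod hFS).finite_subsets
  have hprop : (Set.univ : Set Prop).Finite := Set.finite_univ
  refine Set.Finite.subset (hf.prod (hprop.prod (hprop.prod ((Set.finite_Icc (-170 : ℤ) 170).prod
    (hFS.prod ((Set.finite_Icc (-170 : ℤ) 170).prod (hFS.prod (hp.prod (hp.prod
      ((Set.finite_Icc (-C3) 0).prod (hFS.prod hp2))))))))))) ?_
  rintro _ ⟨s, ⟨hs, hv⟩, rfl⟩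
  obtain ⟨n, hn⟩ : ∃ n, s.length = n + 1 := ⟨s.length - 1, by
    have := List.length_pos_of_ne_nil hs; omega⟩
  have hN := (V_lt h s hv).1
  have hprof : ∀ t, Prof σ ξ μ C2 s.length t ⊆ Set.Icc (-C2) 0 ×ˢ FS σ ξ := by
    rintro t _ ⟨m, hm, rfl⟩
    have h1 := len_le h s.length t
    refine ⟨⟨le_max_right _ _, max_le ?_ (by linarith)⟩, FW_mem h σ _ _ (by omega)⟩
    have := hμ s.length m (by omega)
    linarith
  refine ⟨⟨_, rfl⟩, trivial, trivial, abs_le.1 (W_q_abs h hσ _), FW_mem h σ _ _ le_rfl, ?_,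
    FW_mem h σ _ _ (qq_le h _), hprof true, hprof false, ?_, FW_mem h σ _ _ hN.le, ?_⟩
  · show W σ ξ (qq ξ s.length) 0 ∈ Set.Icc (-170 : ℤ) 170
    rw [hn]
    exact abs_le.1 (W_q_abs h hσ _)
  · refine ⟨le_max_right _ _, max_le ?_ (by linarith)⟩
    have := hμ s.length _ hN
    linarith
  · rintro _ ⟨m, hm, rfl⟩
    exact ⟨⟨le_max_left _ _, max_le (by norm_num) (min_le_left _ _)⟩,
      FW_mem h σ _ _ (by omega)⟩

/-- the language of the words -/
def LL (σ : ℤ) (ξ : ℝ) (B : ℕ) : Language (Fin (B + 1)) :=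
  {w : List (Fin (B + 1)) | Acc σ ξ (w.map Fin.val)}

lemma mem_LL (σ : ℤ) (ξ : ℝ) (B : ℕ) (w : List (Fin (B + 1))) :
    w ∈ LL σ ξ B ↔ Acc σ ξ (w.map Fin.val) := Iff.rfl

theorem LL_regular (h : Irrational ξ) {σ : ℤ} (hσ : |σ| ≤ 1) (hf : (Set.range (zt ξ)).Finite)
    (B : ℕ) : (LL σ ξ B).IsRegular := by
  classical
  obtain ⟨μ, hμ⟩ := exists_mu h σ
  obtain ⟨A, hA⟩ : ∃ A : ℕ, ∀ n, aa ξ (n + 1) ≤ A := by
    obtain ⟨b, hb⟩ := hf.bddAbove
    refine ⟨⌊b⌋₊, fun n => Nat.floor_mono (hb ⟨n + 1, rfl⟩)⟩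
  set CC : ℤ := 508 * A + 338 with hCC
  have hCC0 : 0 ≤ CC := by positivity
  have hC : ∀ n t, ∃ m < len ξ (n + 1) t, μ (n + 1) - CC ≤ W σ ξ m 0 :=
    fun n t => mu_small h hσ A hA μ hμ n t
  have hfin := sig_finite h hσ hf μ (fun n => (hμ n).2) (CC + 1000) (2 * (CC + 508) + 676)
    (by linarith) (by linarith)
  set sg' := sig σ ξ μ (CC + 1000) (2 * (CC + 508) + 676) with hsg'
  set 𝒱 : Set (List ℕ) := {s | s ≠ [] ∧ Vd (zt ξ 1) False s} with h𝒱
  set mp : List (Fin (B + 1)) → List ℕ := fun w => w.map Fin.val with hmp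
  apply Language.IsRegular.of_finite_range_leftQuotient
  -- the quotient depends on the signature only
  have key : ∀ s s' : List (Fin (B + 1)), mp s ∈ 𝒱 → mp s' ∈ 𝒱 → sg' (mp s) = sg' (mp s') →
      (LL σ ξ B).leftQuotient s = (LL σ ξ B).leftQuotient s' := by
    intro s s' hs hs' he
    ext l
    rw [Language.mem_leftQuotient, Language.mem_leftQuotient, mem_LL, mem_LL,
      List.map_append, List.map_append]
    exact ⟨sig_acc h hσ μ CC hCC0 hC _ _ hs.1 hs'.1 hs.2 hs'.2 he _,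
      sig_acc h hσ μ CC hCC0 hC _ _ hs'.1 hs.1 hs'.2 hs.2 he.symm _⟩
  have hcov : Set.range (LL σ ξ B).leftQuotient ⊆
      ({(LL σ ξ B).leftQuotient [], 0} : Set (Language (Fin (B + 1))))
      ∪ (LL σ ξ B).leftQuotient '' {s | mp s ∈ 𝒱} := by
    rintro _ ⟨s, rfl⟩
    by_cases h0 : s = []
    · left; left; rw [h0]
    by_cases h1 : Vd (zt ξ 1) False (mp s)
    · right
      exact ⟨s, ⟨fun h5 => h0 (List.map_eq_nil_iff.1 h5), h1⟩, rfl⟩
    · left; right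
      show (LL σ ξ B).leftQuotient s = 0
      ext l
      rw [Language.mem_leftQuotient]
      constructor
      · intro hl
        have h2 : Acc σ ξ ((s ++ l).map Fin.val) := hl
        rw [List.map_append] at h2
        have h3 := h2.1
        have h4 := (Vd_append (ξ := ξ) (s.map Fin.val) (l.map Fin.val) 0
          False).1 h3
        exact absurd h4.1 h1
      · intro hl; exact absurd hl (Language.notMem_zero l)
  refine Set.Finite.subset (Set.Finite.union (Set.toFinite _) ?_) hcov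
  -- the image is finite
  have hfin' : ((fun s => sg' (mp s)) '' {s | mp s ∈ 𝒱}).Finite := by
    refine hfin.subset ?_
    rintro _ ⟨s, hs, rfl⟩
    exact ⟨mp s, hs, rfl⟩
  -- choose a preimage
  have : (LL σ ξ B).leftQuotient '' {s | mp s ∈ 𝒱} ⊆
      (fun v => if hv : ∃ s, mp s ∈ 𝒱 ∧ sg' (mp s) = v then
        (LL σ ξ B).leftQuotient hv.choose else 0) '' ((fun s => sg' (mp s)) '' {s | mp s ∈ 𝒱}) := by
    rintro _ ⟨s, hs, rfl⟩
    refine ⟨sg' (mp s), ⟨s, hs, rfl⟩, ?_⟩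
    have hv : ∃ s', mp s' ∈ 𝒱 ∧ sg' (mp s') = sg' (mp s) := ⟨s, hs, rfl⟩
    simp only [hv, dif_pos]
    exact key _ _ hv.choose_spec.1 hs hv.choose_spec.2
  exact (hfin'.image _).subset this

end Pool.Agent.H45OST
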