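import Pool.Agent.H45OST.Word

/-!
# Ostrowski automatic records (helper45): signatures and finiteness
-/

set_option autoImplicit false

namespace Pool.Agent.H45OST

variable {ξ : ℝ}

/-- the largest value in a block -/
lemma exists_mu (h : Irrational ξ) (σ : ℤ) : ∃ μ : ℕ → ℤ, ∀ n,
    (∃ m < qq ξ (n + 1), W σ ξ m 0 = μ n) ∧ ∀ m < qq ξ (n + 1), W σ ξ m 0 ≤ μ n := by
  have : ∀ n, ∃ μ : ℤ, (∃ m < qq ξ (n + 1), W σ ξ m 0 = μ) ∧ ∀ m < qq ξ (n + 1), W σ ξ m 0 ≤ μ := by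
    intro n
    obtain ⟨m, hm, hmax⟩ := Finset.exists_max_image (Finset.range (qq ξ (n + 1)))
      (fun m => W σ ξ m 0) ⟨0, Finset.mem_range.2 (qq_pos h n)⟩
    exact ⟨W σ ξ m 0, ⟨m, Finset.mem_range.1 hm, rfl⟩,
      fun k hk => hmax k (Finset.mem_range.2 hk)⟩
  choose μ hμ using this
  exact ⟨μ, hμ⟩

lemma len_le (h : Irrational ξ) (n : ℕ) (t : Bool) : len ξ n t ≤ qq ξ (n + 1) := by
  cases t
  · simp only [len, Bool.false_eq_true, if_false]; exact qq_le h n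
  · simp only [len, if_true]; exact le_rfl

lemma W_len_abs (h : Irrational ξ) {σ : ℤ} (hσ : |σ| ≤ 1) (n : ℕ) (t : Bool) (x : ℝ)
    (hx : |x| ≤ 2) : |W σ ξ (len ξ (n + 1) t) (x * dd ξ (n + 1))| ≤ 508 := by
  have h1 := W_diff h hσ (n + 1) _ (len_le h (n + 1) t) x hx
  have h2 : |W σ ξ (len ξ (n + 1) t) 0| ≤ 170 := by
    cases t
    · simp only [len, Bool.false_eq_true, if_false]; exact W_q_abs h hσ n
    · simp only [len, if_true]; exact W_q_abs h hσ (n + 1)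
  rw [abs_le] at h1 h2 ⊢
  constructor <;> linarith [h1.1, h1.2, h2.1, h2.2]

/-- values at multiples of a denominator -/
lemma W_mul (h : Irrational ξ) {σ : ℤ} (hσ : |σ| ≤ 1) (n : ℕ) (c : ℕ) (hc : c ≤ aa ξ (n + 1)) :
    |W σ ξ (c * qq ξ (n + 1)) 0| ≤ 508 * c := by
  induction c with
  | zero => simp [W_zero]
  | succ c ih =>
    have ih' := ih (by omega)
    rw [Nat.succ_mul, W_add]
    have hz := zt_pos h n
    have e1 : (0 : ℝ) + ((c * qq ξ (n + 1) : ℕ) : ℝ) * ξ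
        = (-(c : ℝ) / zt ξ (n + 1)) * dd ξ n + ((c * pp ξ (n + 1) : ℤ) : ℝ) := by
      have := dd_succ' h n
      have e2 : (-(c : ℝ) / zt ξ (n + 1)) * dd ξ n = c * dd ξ (n + 1) := by
        rw [this]; ring
      rw [e2, dd]; push_cast; ring
    rw [e1, W_int]
    have hx : |-(c : ℝ) / zt ξ (n + 1)| ≤ 2 := by
      rw [abs_div, abs_neg, Nat.abs_cast, abs_of_pos hz, div_le_iff₀ hz]
      have h1 : ((c : ℕ) : ℝ) ≤ aa ξ (n + 1) := by exact_mod_cast (by omega : c ≤ aa ξ (n + 1))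
      have h2 := zt_eq h n
      have h3 := fract_pos h (n + 1)
      linarith
    have h1 := W_diff h hσ n (qq ξ (n + 1)) le_rfl _ hx
    have h2 := W_q_abs h hσ n
    push_cast
    rw [abs_le] at h1 h2 ih' ⊢
    constructor <;> linarith [h1.1, h1.2, h2.1, h2.2, ih'.1, ih'.2]

/-- the maximum over the smaller block is almost as large -/
lemma mu_small (h : Irrational ξ) {σ : ℤ} (hσ : |σ| ≤ 1) (A : ℕ) (hA : ∀ n, aa ξ (n + 1) ≤ A)
    (μ : ℕ → ℤ) (hμ : ∀ n, (∃ m < qq ξ (n + 1), W σ ξ m 0 = μ n) ∧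
      ∀ m < qq ξ (n + 1), W σ ξ m 0 ≤ μ n) (n : ℕ) (t : Bool) :
    ∃ m < len ξ (n + 1) t, μ (n + 1) - (508 * A + 338) ≤ W σ ξ m 0 := by
  cases t
  · simp only [len, Bool.false_eq_true, if_false]
    obtain ⟨m, hm, hm2⟩ := (hμ (n + 1)).1
    have hq := qq_pos h n
    have hz := zt_pos h n
    set q := qq ξ (n + 1) with hq'
    refine ⟨m % q, Nat.mod_lt _ (by omega), ?_⟩
    have hc : m / q ≤ aa ξ (n + 1) := by
      have h1 : m < (aa ξ (n + 1) + 1) * q := by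
        refine lt_of_lt_of_le hm ?_
        rw [show n + 1 + 1 = n + 2 from rfl, qq, add_mul, one_mul]
        exact Nat.add_le_add_left (qq_le h n) _
      have := (Nat.div_lt_iff_lt_mul (by omega : 0 < q)).2 h1
      omega
    have e0 : m = m / q * q + m % q := (Nat.div_add_mod' m q).symm
    generalize m / q = c at hc e0
    have e1 : W σ ξ m 0 = W σ ξ (c * q) 0 + W σ ξ (m % q) (0 + ((c * q : ℕ) : ℝ) * ξ) := by
      rw [← W_add, ← e0]
    have e2 : (0 : ℝ) + ((c * q : ℕ) : ℝ) * ξ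
        = (-(c : ℝ) / zt ξ (n + 1)) * dd ξ n + ((c * pp ξ (n + 1) : ℤ) : ℝ) := by
      have := dd_succ' h n
      have e2 : (-(c : ℝ) / zt ξ (n + 1)) * dd ξ n = (c : ℝ) * dd ξ (n + 1) := by
        rw [this]; ring
      rw [e2, dd, hq']; push_cast; ring
    rw [e2, W_int] at e1
    have hx : |-(c : ℝ) / zt ξ (n + 1)| ≤ 2 := by
      rw [abs_div, abs_neg, Nat.abs_cast, abs_of_pos hz, div_le_iff₀ hz]
      have h1 : (c : ℝ) ≤ aa ξ (n + 1) := by exact_mod_cast hc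
      have h2 := zt_eq h n
      have h3 := fract_pos h (n + 1)
      linarith
    have h1 := W_mul h hσ n c hc
    have h2 := W_diff h hσ n (m % q) (by
      have := Nat.mod_lt m (by omega : 0 < q); omega) _ hx
    have h3 : (c : ℤ) ≤ A := by exact_mod_cast hc.trans (hA n)
    rw [← hq'] at h1
    rw [abs_le] at h1 h2
    linarith [h1.2, h2.2]
  · simp only [len, if_true]
    obtain ⟨m, hm, hm2⟩ := (hμ (n + 1)).1
    refine ⟨m, hm, ?_⟩
    rw [hm2]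
    have : (0 : ℤ) ≤ A := Int.natCast_nonneg _
    linarith

/-- the functions, with a sign -/
noncomputable def FW (σ : ℤ) (ξ : ℝ) (n m : ℕ) : Xs → ℤ :=
  fun x => W σ ξ m (x.1 * dd ξ n) - W σ ξ m 0

/-- the family -/
def FS (σ : ℤ) (ξ : ℝ) : Set (Xs → ℤ) := Set.range (fun p x => σ * Fam ξ p x)

lemma FS_finite (σ : ℤ) (hf : (Set.range (zt ξ)).Finite) : (FS σ ξ).Finite := by
  have := hf.to_subtype
  exact Set.finite_range _

lemma FW_mem (h : Irrational ξ) (σ : ℤ) (n m : ℕ) (hm : m ≤ qq ξ (n + 1)) :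
    FW σ ξ n m ∈ FS σ ξ := by
  obtain ⟨p, hp⟩ := Fu_mem h n m hm
  refine ⟨p, ?_⟩
  funext x
  have := congrFun hp x
  simp only [Fu] at this
  simp only [this, FW, W]
  ring

lemma FW_abs (h : Irrational ξ) {σ : ℤ} (hσ : |σ| ≤ 1) (n m : ℕ) (hm : m ≤ qq ξ (n + 1)) (x : Xs) :
    |FW σ ξ n m x| ≤ 338 := W_diff h hσ n m hm x.1 x.2

/-- the profile of a block -/
def Prof (σ : ℤ) (ξ : ℝ) (μ : ℕ → ℤ) (C : ℤ) (n : ℕ) (t : Bool) : Set (ℤ × (Xs → ℤ)) :=
  {p | ∃ m < len ξ n t, p = (max (W σ ξ m 0 - μ n) (-C), FW σ ξ n m)}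

/-- the profile of a suffix with the value `N` -/
def ProfS (σ : ℤ) (ξ : ℝ) (n N : ℕ) : Set (ℤ × (Xs → ℤ)) :=
  {p | ∃ m < N, p = (max (-700) (min 700 (W σ ξ m 0 - W σ ξ N 0)), FW σ ξ n m)}

end Pool.Agent.H45OST
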