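import Pool.Agent.H45OST.Cross

/-!
# Ostrowski automatic records (helper45): digits and paths
-/

set_option autoImplicit false

namespace Pool.Agent.H45OST

/-- the next complete quotient -/
noncomputable def nx (z : ℝ) : ℝ := (Int.fract z)⁻¹

/-- the value of the digits at the positions `n, n+1, ...` (least significant first) -/
noncomputable def V (ξ : ℝ) : ℕ → List ℕ → ℕ
  | _, [] => 0
  | n, b :: l => b * qq ξ (n + 1) + V ξ (n + 1) l

/-- the scaled point of the digits -/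
noncomputable def Xf : ℝ → List ℕ → ℝ
  | _, [] => 0
  | z, b :: l => -(b + Xf (nx z) l) / z

/-- admissible digits; `c` says that the digit before is zero -/
def Vd : ℝ → Prop → List ℕ → Prop
  | _, _, [] => True
  | z, c, b :: l => b ≤ ⌊z⌋₊ ∧ (b = ⌊z⌋₊ → c) ∧ Vd (nx z) (b = 0) l

/-- the last digit is zero -/
def fl : Prop → List ℕ → Prop
  | c, [] => c
  | _, b :: l => fl (b = 0) l

/-- expansion of a path -/
noncomputable def ex (z : ℝ) (π : List Bool) : List Bool :=
  π.flatMap (fun t => if t then List.replicate ⌊z⌋₊ true ++ [false] else [true])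

/-- the path of the digits -/
noncomputable def Pt : ℝ → List ℕ → List Bool
  | _, [] => []
  | z, b :: l => ex z (Pt (nx z) l) ++ List.replicate b true

/-- the move of a step -/
noncomputable def mv (z : ℝ) (t : Bool) : ℝ := if t then -z⁻¹ else 1

/-- the end of the path -/
noncomputable def en (z : ℝ) : ℝ → List Bool → ℝ
  | x, [] => x
  | x, t :: π => en z (x + mv z t) π

/-- all the points of the path are in `[-B, B]` -/
def Pos (z B : ℝ) : ℝ → List Bool → Prop
  | x, [] => |x| ≤ B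
  | x, t :: π => |x| ≤ B ∧ Pos z B (x + mv z t) π

/-- the length of a step -/
noncomputable def len (ξ : ℝ) (n : ℕ) (t : Bool) : ℕ := if t then qq ξ (n + 1) else qq ξ n

/-- the total length of a path -/
noncomputable def tot (ξ : ℝ) (n : ℕ) (π : List Bool) : ℕ := (π.map (len ξ n)).sum

variable {ξ : ℝ}

lemma nx_zt (n : ℕ) : nx (zt ξ n) = zt ξ (n + 1) := rfl

lemma tot_nil (n : ℕ) : tot ξ n [] = 0 := rfl

lemma tot_cons (n : ℕ) (t : Bool) (π : List Bool) : tot ξ n (t :: π) = len ξ n t + tot ξ n π := by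
  simp [tot]

lemma tot_append (n : ℕ) (π₁ π₂ : List Bool) :
    tot ξ n (π₁ ++ π₂) = tot ξ n π₁ + tot ξ n π₂ := by simp [tot]

lemma tot_rep (n k : ℕ) : tot ξ n (List.replicate k true) = k * qq ξ (n + 1) := by
  simp [tot, len]

lemma ex_cons (z : ℝ) (t : Bool) (π : List Bool) :
    ex z (t :: π) = (if t then List.replicate ⌊z⌋₊ true ++ [false] else [true]) ++ ex z π := by
  simp [ex, List.flatMap_cons]

lemma tot_ex (n : ℕ) (π : List Bool) : tot ξ n (ex (zt ξ (n + 1)) π) = tot ξ (n + 1) π := by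
  induction π with
  | nil => rfl
  | cons t π ih =>
    rw [ex_cons, tot_append, tot_cons, ih]
    congr 1
    cases t
    · simp [tot, len]
    · simp only [if_true, tot_append, tot_rep]
      rw [tot_cons, tot_nil, len, len]
      simp only [Bool.false_eq_true, if_false, if_true]
      rw [show n + 1 + 1 = n + 2 from rfl, qq, aa]
      ring

lemma tot_Pt (l : List ℕ) : ∀ n, tot ξ n (Pt (zt ξ (n + 1)) l) = V ξ n l := by
  induction l with
  | nil => intro n; rfl
  | cons b l ih =>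
    intro n
    rw [Pt, V, tot_append, tot_rep, tot_ex, nx_zt, ih (n + 1)]
    ring

lemma mv_len (h : Irrational ξ) (n : ℕ) (t : Bool) :
    ∃ k : ℤ, (len ξ n t : ℝ) * ξ = mv (zt ξ (n + 1)) t * dd ξ n + k := by
  cases t
  · refine ⟨pp ξ n, ?_⟩
    simp only [len, mv, Bool.false_eq_true, if_false, dd]; ring
  · refine ⟨pp ξ (n + 1), ?_⟩
    have := dd_succ' h n
    simp only [len, mv, if_true]
    rw [show -(zt ξ (n + 1))⁻¹ * dd ξ n = dd ξ (n + 1) by rw [this]; ring, dd]
    ring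

lemma T_step (h : Irrational ξ) (n : ℕ) (t : Bool) (M : ℕ) (x : ℝ) :
    T ξ (len ξ n t + M) (x * dd ξ n) = T ξ (len ξ n t) (x * dd ξ n)
      + T ξ M ((x + mv (zt ξ (n + 1)) t) * dd ξ n) := by
  obtain ⟨k, hk⟩ := mv_len h n t
  rw [T_add, hk, show x * dd ξ n + (mv (zt ξ (n + 1)) t * dd ξ n + k)
    = (x + mv (zt ξ (n + 1)) t) * dd ξ n + k by ring, T_int]

lemma tot_xi (h : Irrational ξ) (n : ℕ) (π : List Bool) : ∀ x : ℝ,
    ∃ k : ℤ, (tot ξ n π : ℝ) * ξ = (en (zt ξ (n + 1)) x π - x) * dd ξ n + k := by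
  induction π with
  | nil => intro x; exact ⟨0, by simp [tot, en]⟩
  | cons t π ih =>
    intro x
    obtain ⟨k, hk⟩ := ih (x + mv (zt ξ (n + 1)) t)
    obtain ⟨k', hk'⟩ := mv_len h n t
    refine ⟨k + k', ?_⟩
    rw [tot_cons, en]
    push_cast
    rw [add_mul, hk, hk']
    ring

lemma en_append (z : ℝ) (π₁ π₂ : List Bool) : ∀ x, en z x (π₁ ++ π₂) = en z (en z x π₁) π₂ := by
  induction π₁ with
  | nil => intro x; rfl
  | cons t π ih => intro x; rw [List.cons_append, en, en, ih]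

lemma en_rep (z : ℝ) (k : ℕ) : ∀ x, en z x (List.replicate k true) = x - k * z⁻¹ := by
  induction k with
  | zero => intro x; simp [en]
  | succ k ih =>
    intro x
    rw [List.replicate_succ, en, ih, mv, if_pos rfl]
    push_cast
    ring

lemma en_ex (n : ℕ) (h : Irrational ξ) (π : List Bool) : ∀ x,
    en (zt ξ (n + 1)) (-x / zt ξ (n + 1)) (ex (zt ξ (n + 1)) π)
      = -(en (zt ξ (n + 2)) x π) / zt ξ (n + 1) := by
  have hz := zt_pos h n
  have he := zt_eq h n
  have hi := zt_inv (ξ := ξ) (n + 1)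
  induction π with
  | nil => intro x; rfl
  | cons t π ih =>
    intro x
    rw [ex_cons, en_append, en, ← ih]
    congr 1
    cases t
    · simp only [Bool.false_eq_true, if_false, en, mv, if_true]
      ring
    · simp only [if_true]
      rw [en_append, en_rep]
      simp only [en, mv, Bool.false_eq_true, if_false, if_true]
      rw [show zt ξ (n + 2) = zt ξ (n + 1 + 1) from rfl, hi]
      have h1 : ((⌊zt ξ (n + 1)⌋₊ : ℕ) : ℝ) = zt ξ (n + 1) - Int.fract (zt ξ (n + 1)) := by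
        have : aa ξ (n + 1) = ⌊zt ξ (n + 1)⌋₊ := rfl
        rw [← this]; linarith
      rw [h1]
      field_simp
      ring

lemma en_Pt (h : Irrational ξ) (l : List ℕ) : ∀ n,
    en (zt ξ (n + 1)) 0 (Pt (zt ξ (n + 1)) l) = Xf (zt ξ (n + 1)) l := by
  induction l with
  | nil => intro n; rfl
  | cons b l ih =>
    intro n
    rw [Pt, Xf, en_append, nx_zt]
    have := en_ex n h (Pt (zt ξ (n + 1 + 1)) l) 0
    rw [neg_zero, zero_div] at this
    rw [this, en_rep, ih (n + 1)]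
    ring

lemma Pos_append (z B : ℝ) (π₁ π₂ : List Bool) : ∀ x,
    Pos z B x π₁ → Pos z B (en z x π₁) π₂ → Pos z B x (π₁ ++ π₂) := by
  induction π₁ with
  | nil => intro x _ h; exact h
  | cons t π ih => intro x h1 h2; exact ⟨h1.1, ih _ h1.2 h2⟩

lemma Pos_end {z B : ℝ} (π : List Bool) : ∀ x, Pos z B x π → |en z x π| ≤ B := by
  induction π with
  | nil => intro x h; exact h
  | cons t π ih => intro x h; exact ih _ h.2

lemma Pos_mono {z B B' : ℝ} (hB : B ≤ B') (π : List Bool) : ∀ x, Pos z B x π → Pos z B' x π := by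
  induction π with
  | nil => intro x h; exact h.trans hB
  | cons t π ih => intro x h; exact ⟨h.1.trans hB, ih _ h.2⟩

lemma Pos_rep (z B : ℝ) (k : ℕ) : ∀ x, (∀ i : ℕ, i ≤ k → |x - i * z⁻¹| ≤ B) →
    Pos z B x (List.replicate k true) := by
  induction k with
  | zero =>
    intro x h
    have := h 0 le_rfl
    simpa [Pos] using this
  | succ k ih =>
    intro x h
    rw [List.replicate_succ]
    refine ⟨by simpa using h 0 (Nat.zero_le _), ih _ fun i hi => ?_⟩
    have := h (i + 1) (by omega)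
    rw [mv, if_pos rfl]
    rw [show x + -z⁻¹ - i * z⁻¹ = x - ((i + 1 : ℕ) : ℝ) * z⁻¹ by push_cast; ring]
    exact this

lemma bound_aux (h : Irrational ξ) (n : ℕ) (x : ℝ) (hx : |x| ≤ 1 + (zt ξ (n + 2))⁻¹) (i : ℕ)
    (hi : i ≤ ⌊zt ξ (n + 1)⌋₊) :
    |-x / zt ξ (n + 1) - i * (zt ξ (n + 1))⁻¹| ≤ 1 + (zt ξ (n + 1))⁻¹ := by
  have hz := zt_pos h n
  have he := zt_eq h n
  have h1 : (i : ℝ) ≤ aa ξ (n + 1) := by exact_mod_cast hi
  rw [show zt ξ (n + 2) = zt ξ (n + 1 + 1) from rfl, zt_inv] at hx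
  rw [show -x / zt ξ (n + 1) - i * (zt ξ (n + 1))⁻¹ = -(x + i) * (zt ξ (n + 1))⁻¹ by ring,
    abs_mul, abs_neg, abs_of_pos (inv_pos.2 hz)]
  have h2 : |x + i| ≤ 1 + zt ξ (n + 1) := by
    refine (abs_add_le _ _).trans ?_
    rw [Nat.abs_cast]
    linarith
  calc |x + i| * (zt ξ (n + 1))⁻¹ ≤ (1 + zt ξ (n + 1)) * (zt ξ (n + 1))⁻¹ :=
        mul_le_mul_of_nonneg_right h2 (inv_pos.2 hz).le
    _ = 1 + (zt ξ (n + 1))⁻¹ := by rw [add_mul, mul_inv_cancel₀ hz.ne']; ring

lemma Pos_ex (h : Irrational ξ) (n : ℕ) (π : List Bool) : ∀ x,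
    Pos (zt ξ (n + 2)) (1 + (zt ξ (n + 2))⁻¹) x π →
    Pos (zt ξ (n + 1)) (1 + (zt ξ (n + 1))⁻¹) (-x / zt ξ (n + 1)) (ex (zt ξ (n + 1)) π) := by
  have hz := zt_pos h n
  induction π with
  | nil =>
    intro x hx
    have := bound_aux h n x hx 0 (Nat.zero_le _)
    simpa [ex, Pos] using this
  | cons t π ih =>
    intro x hx
    have hend := en_ex n h [t] x
    rw [ex_cons]
    rw [ex_cons, show ex (zt ξ (n + 1)) [] = [] from rfl, List.append_nil] at hend
    refine Pos_append _ _ _ _ _ ?_ ?_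
    · cases t
      · simp only [Bool.false_eq_true, if_false, Pos]
        have b0 := bound_aux h n x hx.1 0 (Nat.zero_le _)
        simp only [Nat.cast_zero, zero_mul, sub_zero] at b0
        refine ⟨b0, ?_⟩
        have b1 := bound_aux h n x hx.1 1 (by
          have := aa_pos h n; exact this)
        rw [mv, if_pos rfl]
        simpa [sub_eq_add_neg] using b1
      · simp only [if_true] at hend ⊢
        refine Pos_append _ _ _ _ _ (Pos_rep _ _ _ _ fun i hi => bound_aux h n x hx.1 i hi) ?_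
        refine ⟨?_, ?_⟩
        · rw [en_rep]; exact bound_aux h n x hx.1 _ le_rfl
        · -- the end of the block
          rw [en_append] at hend
          simp only [en] at hend
          rw [Pos, hend]
          have hx2 : |x + mv (zt ξ (n + 2)) true| ≤ 1 + (zt ξ (n + 2))⁻¹ := by
            cases π with
            | nil => exact hx.2
            | cons _ _ => exact hx.2.1
          have := bound_aux h n _ hx2 0 (Nat.zero_le _)
          simpa using this
    · rw [hend]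
      exact ih _ hx.2

lemma Pos_Pt (h : Irrational ξ) (l : List ℕ) : ∀ n c, Vd (zt ξ (n + 1)) c l →
    Pos (zt ξ (n + 1)) (1 + (zt ξ (n + 1))⁻¹) 0 (Pt (zt ξ (n + 1)) l) := by
  induction l with
  | nil =>
    intro n c _
    have := zt_pos h n
    simp only [Pt, Pos, abs_zero]
    positivity
  | cons b l ih =>
    intro n c hv
    rw [Pt, nx_zt]
    have ih' := ih (n + 1) _ hv.2.2
    have h1 := Pos_ex h n _ 0 ih'
    rw [neg_zero, zero_div] at h1
    refine Pos_append _ _ _ _ _ h1 (Pos_rep _ _ _ _ fun i hi => ?_)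
    have h2 := en_ex n h (Pt (zt ξ (n + 1 + 1)) l) 0
    rw [neg_zero, zero_div] at h2
    rw [h2]
    exact bound_aux h n _ (Pos_end _ _ ih') i (hi.trans hv.1)

lemma Pos_Pt2 (h : Irrational ξ) (l : List ℕ) (n : ℕ) (c : Prop) (hv : Vd (zt ξ (n + 1)) c l) :
    Pos (zt ξ (n + 1)) 2 0 (Pt (zt ξ (n + 1)) l) := by
  refine Pos_mono ?_ _ _ (Pos_Pt h l n c hv)
  have := inv_lt_one_of_one_lt₀ (one_lt_zt h n)
  linarith

lemma Xf_abs (h : Irrational ξ) (l : List ℕ) (n : ℕ) (c : Prop) (hv : Vd (zt ξ (n + 1)) c l) :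
    |Xf (zt ξ (n + 1)) l| ≤ 2 := by
  rw [← en_Pt h]
  exact Pos_end _ _ (Pos_Pt2 h l n c hv)

lemma V_xi (h : Irrational ξ) (l : List ℕ) (n : ℕ) :
    ∃ k : ℤ, (V ξ n l : ℝ) * ξ = Xf (zt ξ (n + 1)) l * dd ξ n + k := by
  obtain ⟨k, hk⟩ := tot_xi h n (Pt (zt ξ (n + 1)) l) 0
  exact ⟨k, by rw [← tot_Pt, hk, en_Pt h]; ring⟩

/-! ### blocks -/

/-- the sums with a sign -/
noncomputable def W (σ : ℤ) (ξ : ℝ) (m : ℕ) (y : ℝ) : ℤ := σ * T ξ m y

lemma W_zero (σ : ℤ) (y : ℝ) : W σ ξ 0 y = 0 := by simp [W, T_zero]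

lemma W_add (σ : ℤ) (m k : ℕ) (y : ℝ) : W σ ξ (m + k) y = W σ ξ m y + W σ ξ k (y + m * ξ) := by
  rw [W, T_add, mul_add]; rfl

lemma W_int (σ : ℤ) (m : ℕ) (y : ℝ) (k : ℤ) : W σ ξ m (y + k) = W σ ξ m y := by
  rw [W, T_int]; rfl

lemma W_step (h : Irrational ξ) (σ : ℤ) (n : ℕ) (t : Bool) (M : ℕ) (x : ℝ) :
    W σ ξ (len ξ n t + M) (x * dd ξ n) = W σ ξ (len ξ n t) (x * dd ξ n)
      + W σ ξ M ((x + mv (zt ξ (n + 1)) t) * dd ξ n) := by
  rw [W, T_step h, mul_add]; rfl

lemma W_diff (h : Irrational ξ) {σ : ℤ} (hσ : |σ| ≤ 1) (n m : ℕ) (hm : m ≤ qq ξ (n + 1)) (x : ℝ)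
    (hx : |x| ≤ 2) : |W σ ξ m (x * dd ξ n) - W σ ξ m 0| ≤ 338 := by
  have := T_abs_diff h n m hm x hx
  rw [W, W, ← mul_sub, abs_mul]
  nlinarith [abs_nonneg (T ξ m (x * dd ξ n) - T ξ m 0), abs_nonneg σ]

lemma W_q_abs (h : Irrational ξ) {σ : ℤ} (hσ : |σ| ≤ 1) (n : ℕ) :
    |W σ ξ (qq ξ (n + 1)) 0| ≤ 170 := by
  have := T_q_abs h n
  rw [W, abs_mul]
  nlinarith [abs_nonneg (T ξ (qq ξ (n + 1)) 0), abs_nonneg σ]

/-- all earlier values are less than the last one plus `s` -/
def Good (σ : ℤ) (ξ : ℝ) (n : ℕ) (x : ℝ) (π : List Bool) (s : ℤ) : Prop :=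
  ∀ M < tot ξ n π, W σ ξ M (x * dd ξ n) < W σ ξ (tot ξ n π) (x * dd ξ n) + s

lemma good_cons (h : Irrational ξ) (σ : ℤ) (n : ℕ) (x : ℝ) (t : Bool) (π : List Bool) (s : ℤ) :
    Good σ ξ n x (t :: π) s ↔
      (∀ m < len ξ n t, W σ ξ m (x * dd ξ n) < W σ ξ (len ξ n t) (x * dd ξ n)
        + W σ ξ (tot ξ n π) ((x + mv (zt ξ (n + 1)) t) * dd ξ n) + s)
      ∧ Good σ ξ n (x + mv (zt ξ (n + 1)) t) π s := by
  unfold Good
  rw [tot_cons]
  constructor
  · intro H
    constructor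
    · intro m hm
      have := H m (by omega)
      rw [W_step h] at this
      exact this
    · intro M hM
      have := H (len ξ n t + M) (by omega)
      rw [W_step h, W_step h] at this
      linarith
  · rintro ⟨H1, H2⟩ M hM
    rw [W_step h]
    rcases lt_or_ge M (len ξ n t) with h1 | h1
    · have := H1 M h1
      linarith
    · obtain ⟨M', rfl⟩ := Nat.exists_eq_add_of_le h1
      have := H2 M' (by omega)
      rw [W_step h]
      linarith

theorem transfer (h : Irrational ξ) (σ : ℤ) (n n' : ℕ) (hz : zt ξ (n + 1) = zt ξ (n' + 1))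
    (μ μ' : ℤ)
    (hE : ∀ t x, |x| ≤ 2 → W σ ξ (len ξ n t) (x * dd ξ n) = W σ ξ (len ξ n' t) (x * dd ξ n'))
    (hM : ∀ t x θ, |x| ≤ 2 → (∀ m < len ξ n t, W σ ξ m (x * dd ξ n) - μ < θ) →
      (∀ m < len ξ n' t, W σ ξ m (x * dd ξ n') - μ' < θ)) (s : ℤ)
    (π : List Bool) : ∀ x, Pos (zt ξ (n + 1)) 2 x π →
      W σ ξ (tot ξ n π) (x * dd ξ n) = W σ ξ (tot ξ n' π) (x * dd ξ n') ∧
      (Good σ ξ n x π (μ + s) → Good σ ξ n' x π (μ' + s)) := by
  induction π with
  | nil =>
    intro x _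
    refine ⟨by simp [tot_nil, W_zero], fun _ M hM => ?_⟩
    simp [tot_nil] at hM
  | cons t π ih =>
    intro x hx
    obtain ⟨ih1, ih2⟩ := ih _ hx.2
    constructor
    · rw [tot_cons, tot_cons, W_step h, W_step h, ← hz, ih1, hE t x hx.1]
    · rw [good_cons h, good_cons h, ← hz]
      rintro ⟨H1, H2⟩
      refine ⟨?_, ih2 H2⟩
      intro m hm
      have := hM t x (W σ ξ (len ξ n t) (x * dd ξ n)
        + W σ ξ (tot ξ n π) ((x + mv (zt ξ (n + 1)) t) * dd ξ n) + s) hx.1 (fun m hm => by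
          have := H1 m hm; linarith) m hm
      rw [← hE t x hx.1, ← ih1]
      linarith

theorem fails (h : Irrational ξ) {σ : ℤ} (hσ : |σ| ≤ 1) (n : ℕ) (μ C : ℤ)
    (hC : ∀ t, ∃ m < len ξ n t, μ - C ≤ W σ ξ m 0)
    (hl : ∀ t, len ξ n t ≤ qq ξ (n + 1))
    (hE : ∀ t x, |x| ≤ 2 → |W σ ξ (len ξ n t) (x * dd ξ n)| ≤ C) (s : ℤ)
    (π : List Bool) : ∀ x, π ≠ [] → Pos (zt ξ (n + 1)) 2 x π → Good σ ξ n x π (μ + s) →
      -(2 * C + 338) < s := by
  induction π with
  | nil => intro x hx; exact absurd rfl hx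
  | cons t π ih =>
    intro x _ hx hg
    rw [good_cons h] at hg
    by_cases hp : π = []
    · subst hp
      obtain ⟨m, hm, hm2⟩ := hC t
      have h1 := hg.1 m hm
      rw [tot_nil, W_zero] at h1
      have h2 := hE t x hx.1
      have h3 := W_diff h hσ n m (by have := hl t; omega) x hx.1
      rw [abs_le] at h2 h3
      linarith
    · exact ih _ hp hx.2 hg.2

/-! ### words -/

lemma V_append (s l : List ℕ) : ∀ n, V ξ n (s ++ l) = V ξ n s + V ξ (n + s.length) l := by
  induction s with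
  | nil => intro n; simp [V]
  | cons b s ih =>
    intro n
    rw [List.cons_append, V, V, ih, List.length_cons,
      show n + 1 + s.length = n + (s.length + 1) by ring]
    ring

lemma Vd_append (s l : List ℕ) : ∀ n c, Vd (zt ξ (n + 1)) c (s ++ l) ↔
    Vd (zt ξ (n + 1)) c s ∧ Vd (zt ξ (n + s.length + 1)) (fl c s) l := by
  induction s with
  | nil => intro n c; simp [Vd, fl]
  | cons b s ih =>
    intro n c
    rw [List.cons_append, Vd, Vd, nx_zt, ih, fl, List.length_cons,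
      show n + 1 + s.length + 1 = n + (s.length + 1) + 1 by ring]
    tauto

lemma fl_snoc (c : Prop) (s : List ℕ) (b : ℕ) : fl c (s ++ [b]) ↔ b = 0 := by
  induction s generalizing c with
  | nil => simp [fl]
  | cons a s ih => rw [List.cons_append, fl]; exact ih _

lemma V_lt (h : Irrational ξ) (s : List ℕ) : Vd (zt ξ 1) False s →
    V ξ 0 s < qq ξ (s.length + 1) ∧ (fl False s → V ξ 0 s < qq ξ s.length) := by
  induction s using List.reverseRecOn with
  | nil => intro _; exact ⟨by simp [V, qq], fun h => h.elim⟩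
  | append_singleton s b ih =>
    intro hv
    rw [Vd_append s [b] 0 False] at hv
    obtain ⟨hv1, hv2⟩ := hv
    obtain ⟨ih1, ih2⟩ := ih hv1
    have hb1 : b ≤ aa ξ (s.length + 1) := by
      have := hv2.1; rw [zero_add] at this; exact this
    have hb2 : b = aa ξ (s.length + 1) → fl False s := by
      have := hv2.2.1; rw [zero_add] at this; exact this
    have e1 : V ξ 0 (s ++ [b]) = V ξ 0 s + b * qq ξ (s.length + 1) := by
      rw [V_append]; simp [V]
    rw [e1, List.length_append, List.length_singleton, fl_snoc,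
      show s.length + 1 + 1 = s.length + 2 from rfl, qq]
    constructor
    · rcases hb1.lt_or_eq with h1 | h1
      · have h3 : (b + 1) * qq ξ (s.length + 1) ≤ aa ξ (s.length + 1) * qq ξ (s.length + 1) :=
          Nat.mul_le_mul_right _ h1
        nlinarith
      · have := ih2 (hb2 h1)
        rw [← h1]
        omega
    · intro h0
      rw [h0]
      simpa using ih1

end Pool.Agent.H45OST
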